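import Pool.Agent.N256.HN.UE2

/-!
# Time-changes of nilflows
-/

set_option autoImplicit false

open MeasureTheory Filter Topology Set
open scoped ENNReal

namespace Pool.Agent.N256.HN

open Heis

/-- the new time -/
noncomputable def tau (X : ℝ × ℝ × ℝ) (α : Nil → ℝ) (p : Nil) (t : ℝ) : ℝ :=
  ∫ r in (0 : ℝ)..t, α (nilflow X r p)

section

variable (X : ℝ × ℝ × ℝ) {α : Nil → ℝ} (hα : Continuous α) (hpos : ∀ p, 0 < α p)

lemma exists_lower (hα : Continuous α) (hpos : ∀ p, 0 < α p) : ∃ δ : ℝ, 0 < δ ∧ ∀ p, δ ≤ α p := by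
  obtain ⟨p, _, hp⟩ := isCompact_univ.exists_isMinOn (s := (univ : Set Nil))
    ⟨toNil 1, mem_univ _⟩ hα.continuousOn
  exact ⟨α p, hpos p, fun q => hp (mem_univ q)⟩

lemma exists_boundR (hα : Continuous α) : ∃ C : ℝ, 0 < C ∧ ∀ p, |α p| ≤ C := by
  obtain ⟨C, hC⟩ := isCompact_univ.exists_bound_of_continuousOn hα.continuousOn
  exact ⟨max C 1, by positivity, fun p => (hC p (mem_univ p)).trans (le_max_left _ _)⟩

lemma continuous_alpha_flow (hα : Continuous α) (p : Nil) : Continuous (fun r => α (nilflow X r p)) :=
  hα.comp ((continuous_nilflow X).comp (Continuous.prodMk continuous_id continuous_const))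

lemma continuous_tau (hα : Continuous α) : Continuous (fun q : Nil × ℝ => tau X α q.1 q.2) := by
  unfold tau
  refine intervalIntegral.continuous_parametric_primitive_of_continuous
    (f := fun (p : Nil) (r : ℝ) => α (nilflow X r p)) ?_
  exact hα.comp ((continuous_nilflow X).comp (Continuous.prodMk continuous_snd continuous_fst))

lemma hasDerivAt_tau (hα : Continuous α) (p : Nil) (t : ℝ) :
    HasDerivAt (tau X α p) (α (nilflow X t p)) t :=
  (continuous_alpha_flow X hα p).integral_hasStrictDerivAt 0 t |>.hasDerivAt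

lemma tau_zero (p : Nil) : tau X α p 0 = 0 := by simp [tau]

lemma tau_sub (hα : Continuous α) (p : Nil) (s t : ℝ) :
    tau X α p t - tau X α p s = ∫ r in s..t, α (nilflow X r p) := by
  unfold tau
  exact intervalIntegral.integral_interval_sub_left
    ((continuous_alpha_flow X hα p).intervalIntegrable _ _)
    ((continuous_alpha_flow X hα p).intervalIntegrable _ _)

lemma tau_add (hα : Continuous α) (p : Nil) (r t : ℝ) :
    tau X α (nilflow X r p) t = tau X α p (r + t) - tau X α p r := by
  rw [tau_sub X hα]
  unfold tau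
  have := intervalIntegral.integral_comp_add_right (a := 0) (b := t)
    (fun s => α (nilflow X s p)) r
  rw [zero_add, add_comm t r] at this
  rw [← this]
  simp only [nilflow_add]

lemma tau_lower {δ : ℝ} (hδ : ∀ p, δ ≤ α p) (hα : Continuous α) (p : Nil) {s t : ℝ} (h : s ≤ t) :
    δ * (t - s) ≤ tau X α p t - tau X α p s := by
  rw [tau_sub X hα]
  have := intervalIntegral.integral_mono_on (μ := volume) (a := s) (b := t) h
    (f := fun _ => δ) (g := fun r => α (nilflow X r p)) intervalIntegrable_const
    ((continuous_alpha_flow X hα p).intervalIntegrable _ _) (fun r _ => hδ _)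
  rw [intervalIntegral.integral_const, smul_eq_mul] at this
  linarith

include hα hpos in
lemma strictMono_tau (p : Nil) : StrictMono (tau X α p) := by
  obtain ⟨δ, hδ0, hδ⟩ := exists_lower hα hpos
  intro s t hst
  have := tau_lower X hδ hα p hst.le
  have : 0 < δ * (t - s) := mul_pos hδ0 (sub_pos.2 hst)
  linarith

include hα hpos in
lemma surjective_tau (p : Nil) : Function.Surjective (tau X α p) := by
  obtain ⟨δ, hδ0, hδ⟩ := exists_lower hα hpos
  have hc : Continuous (tau X α p) :=
    (continuous_tau X hα).comp (Continuous.prodMk continuous_const continuous_id)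
  refine hc.surjective ?_ ?_
  · refine tendsto_atTop_mono' atTop (f₁ := fun t => δ * t) ?_ (tendsto_id.const_mul_atTop hδ0)
    filter_upwards [eventually_ge_atTop 0] with t ht
    have := tau_lower X hδ hα p ht
    rw [tau_zero] at this
    linarith
  · refine tendsto_atBot_mono' atBot (?_ : tau X α p ≤ᶠ[atBot] fun t => δ * t)
      (tendsto_id.const_mul_atBot hδ0)
    filter_upwards [eventually_le_atBot 0] with t ht
    have := tau_lower X hδ hα p ht
    rw [tau_zero] at this
    linarith

/-- the old time as a function of the new one -/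
noncomputable def tinv (X : ℝ × ℝ × ℝ) (α : Nil → ℝ) (p : Nil) (s : ℝ) : ℝ :=
  Function.invFun (tau X α p) s

include hα hpos in
lemma tau_tinv (p : Nil) (s : ℝ) : tau X α p (tinv X α p s) = s :=
  Function.rightInverse_invFun (surjective_tau X hα hpos p) s

include hα hpos in
lemma tinv_tau (p : Nil) (t : ℝ) : tinv X α p (tau X α p t) = t :=
  Function.leftInverse_invFun (strictMono_tau X hα hpos p).injective t

include hα hpos in
lemma continuous_tinv (p : Nil) : Continuous (tinv X α p) := by
  have h1 := ((strictMono_tau X hα hpos p).orderIsoOfSurjective _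
    (surjective_tau X hα hpos p)).symm.continuous
  convert h1 using 1
  ext s
  rw [eq_comm, OrderIso.symm_apply_eq]
  simp [tau_tinv X hα hpos p s]

include hα hpos in
lemma measurable_tinv (s : ℝ) : Measurable (fun p => tinv X α p s) := by
  refine measurable_of_Iic fun t => ?_
  have : (fun p => tinv X α p s) ⁻¹' Iic t = {p | s ≤ tau X α p t} := by
    ext p
    simp only [mem_preimage, mem_Iic, mem_ofPred_eq]
    rw [← (strictMono_tau X hα hpos p).le_iff_le, tau_tinv X hα hpos]
  rw [this]
  exact (isClosed_le continuous_const ((continuous_tau X hα).comp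
    (Continuous.prodMk continuous_id continuous_const))).measurableSet

/-- the time-changed flow -/
noncomputable def tcflow (X : ℝ × ℝ × ℝ) (α : Nil → ℝ) (s : ℝ) (p : Nil) : Nil :=
  nilflow X (tinv X α p s) p

include hα hpos in
lemma tcflow_tau (p : Nil) (t : ℝ) : tcflow X α (tau X α p t) p = nilflow X t p := by
  unfold tcflow
  rw [tinv_tau X hα hpos]

include hα hpos in
lemma isTimeChange_tcflow : IsTimeChange (nilflow X) α (tcflow X α) :=
  fun p t => tcflow_tau X hα hpos p t

include hα hpos in
lemma tcflow_add (s r : ℝ) (p : Nil) : tcflow X α s (tcflow X α r p) = tcflow X α (s + r) p := by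
  obtain ⟨t, rfl⟩ := surjective_tau X hα hpos p r
  rw [tcflow_tau X hα hpos]
  obtain ⟨t', rfl⟩ := surjective_tau X hα hpos (nilflow X t p) s
  rw [tcflow_tau X hα hpos, nilflow_add, tau_add X hα, sub_add_cancel, tcflow_tau X hα hpos, add_comm]

include hα hpos in
lemma tcflow_zero (p : Nil) : tcflow X α 0 p = p := by
  have := tcflow_tau X hα hpos p 0
  rwa [tau_zero, nilflow_zero] at this

include hα hpos in
lemma measurable_tcflow (s : ℝ) : Measurable (tcflow X α s) :=
  (continuous_nilflow X).measurable.comp ((measurable_tinv X hα hpos s).prodMk measurable_id)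

include hα hpos in
lemma continuous_tcflow_time (p : Nil) : Continuous (fun s => tcflow X α s p) :=
  (continuous_nilflow X).comp ((continuous_tinv X hα hpos p).prodMk continuous_const)

include hα hpos in
/-- The time-change flow is determined by `IsTimeChange`. -/
lemma eq_tcflow {ψ : ℝ → Nil → Nil} (h : IsTimeChange (nilflow X) α ψ) : ψ = tcflow X α := by
  ext s p
  obtain ⟨t, rfl⟩ := surjective_tau X hα hpos p s
  rw [tcflow_tau X hα hpos]
  exact h p t

include hα hpos in
/-- invariance of the measure `α dμ` -/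
lemma integral_tcflow (f : Nil → ℝ) (hf : Continuous f) (s : ℝ) :
    ∫ p, α p * f (tcflow X α s p) ∂haarNil = ∫ p, α p * f p ∂haarNil := by
  obtain ⟨C, hC0, hC⟩ := exists_boundR hf
  obtain ⟨D, hD0, hD⟩ := exists_boundR hα
  -- estimates along an orbit
  have h1 : ∀ (p : Nil) (s R : ℝ), ∫ r in (0 : ℝ)..R, α (nilflow X r p) *
      f (tcflow X α s (nilflow X r p)) = ∫ σ in s..(s + tau X α p R), f (tcflow X α σ p) := by
    intro p s R
    have h := intervalIntegral.integral_comp_mul_deriv (a := 0) (b := R)
      (f := fun r => s + tau X α p r) (f' := fun r => α (nilflow X r p))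
      (g := fun σ => f (tcflow X α σ p))
      (fun r _ => (hasDerivAt_tau X hα p r).const_add s)
      (continuous_alpha_flow X hα p).continuousOn
      (hf.comp (continuous_tcflow_time X hα hpos p))
    rw [tau_zero, add_zero] at h
    rw [← h]
    refine intervalIntegral.integral_congr fun r _ => ?_
    simp only [Function.comp]
    rw [← tcflow_add X hα hpos, tcflow_tau X hα hpos, mul_comm]
  have h2 : ∀ (p : Nil) (R : ℝ), |(∫ r in (0 : ℝ)..R, α (nilflow X r p) *
      f (tcflow X α s (nilflow X r p))) - ∫ r in (0 : ℝ)..R, α (nilflow X r p) *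
      f (tcflow X α 0 (nilflow X r p))| ≤ 2 * C * |s| := by
    intro p R
    have hg : Continuous (fun σ => f (tcflow X α σ p)) :=
      hf.comp (continuous_tcflow_time X hα hpos p)
    rw [h1 p s R, h1 p 0 R, zero_add]
    have e : (∫ σ in s..(s + tau X α p R), f (tcflow X α σ p)) -
        ∫ σ in (0 : ℝ)..(tau X α p R), f (tcflow X α σ p) =
        (∫ σ in (tau X α p R)..(s + tau X α p R), f (tcflow X α σ p)) -
        ∫ σ in (0 : ℝ)..s, f (tcflow X α σ p) := by
      rw [← intervalIntegral.integral_add_adjacent_intervals (b := tau X α p R)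
        (hg.intervalIntegrable _ _) (hg.intervalIntegrable _ _),
        ← intervalIntegral.integral_add_adjacent_intervals (a := 0) (b := s)
        (c := tau X α p R) (hg.intervalIntegrable _ _) (hg.intervalIntegrable _ _)]
      ring
    rw [e]
    have b1 := intervalIntegral.norm_integral_le_of_norm_le_const (a := tau X α p R)
      (b := s + tau X α p R) (f := fun σ => f (tcflow X α σ p)) (C := C) (fun σ _ => hC _)
    have b2 := intervalIntegral.norm_integral_le_of_norm_le_const (a := 0)
      (b := s) (f := fun σ => f (tcflow X α σ p)) (C := C) (fun σ _ => hC _)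
    rw [Real.norm_eq_abs] at b1 b2
    rw [add_sub_cancel_right] at b1
    rw [sub_zero] at b2
    calc |_ - _| ≤ |_| + |_| := abs_sub _ _
      _ ≤ C * |s| + C * |s| := add_le_add b1 b2
      _ = 2 * C * |s| := by ring
  -- integrate
  have h3 : ∀ (s : ℝ) (R : ℝ), 0 ≤ R → ∫ p, (∫ r in (0 : ℝ)..R, α (nilflow X r p) *
      f (tcflow X α s (nilflow X r p))) ∂haarNil = R * ∫ p, α p * f (tcflow X α s p) ∂haarNil := by
    intro s R hR
    have hm : Measurable (fun p => α p * f (tcflow X α s p)) :=
      hα.measurable.mul (hf.measurable.comp (measurable_tcflow X hα hpos s))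
    simp only [intervalIntegral.integral_of_le hR]
    rw [integral_integral_swap]
    · have : ∀ r : ℝ, ∫ p, α (nilflow X r p) * f (tcflow X α s (nilflow X r p)) ∂haarNil =
          ∫ p, α p * f (tcflow X α s p) ∂haarNil := by
        intro r
        conv_rhs => rw [← (measurePreserving_haar (expo X r)).map_eq]
        rw [integral_map (measurable_mulR _).aemeasurable hm.aestronglyMeasurable]
        rfl
      simp only [this]
      simp [hR]
    · refine Integrable.of_bound (C := D * C) ?_ (ae_of_all _ fun q => ?_)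
      · refine Measurable.aestronglyMeasurable ?_
        exact hm.comp ((continuous_nilflow X).measurable.comp
          (measurable_snd.prodMk measurable_fst))
      · simp only [Function.uncurry]
        rw [norm_mul]
        exact mul_le_mul (hD _) (hC _) (norm_nonneg _) hD0.le
  have hint : ∀ (s R : ℝ), 0 ≤ R → Integrable (fun p => ∫ r in (0 : ℝ)..R, α (nilflow X r p) *
      f (tcflow X α s (nilflow X r p))) haarNil := by
    intro s R hR
    have hm : Measurable (fun p => α p * f (tcflow X α s p)) :=
      hα.measurable.mul (hf.measurable.comp (measurable_tcflow X hα hpos s))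
    simp only [intervalIntegral.integral_of_le hR]
    refine Integrable.integral_prod_left (f := fun q : Nil × ℝ => α (nilflow X q.2 q.1) *
      f (tcflow X α s (nilflow X q.2 q.1))) ?_
    refine Integrable.of_bound (C := D * C) ?_ (ae_of_all _ fun q => ?_)
    · refine Measurable.aestronglyMeasurable ?_
      exact hm.comp ((continuous_nilflow X).measurable.comp
        (measurable_snd.prodMk measurable_fst))
    · rw [norm_mul]
      exact mul_le_mul (hD _) (hC _) (norm_nonneg _) hD0.le
  have h4 : ∀ R : ℝ, 0 ≤ R → R * |(∫ p, α p * f (tcflow X α s p) ∂haarNil) -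
      ∫ p, α p * f (tcflow X α 0 p) ∂haarNil| ≤ 2 * C * |s| := by
    intro R hR
    have e : R * |(∫ p, α p * f (tcflow X α s p) ∂haarNil) -
        ∫ p, α p * f (tcflow X α 0 p) ∂haarNil| =
        ‖∫ p, ((∫ r in (0 : ℝ)..R, α (nilflow X r p) *
        f (tcflow X α s (nilflow X r p))) - ∫ r in (0 : ℝ)..R, α (nilflow X r p) *
        f (tcflow X α 0 (nilflow X r p))) ∂haarNil‖ := by
      rw [integral_sub (hint s R hR) (hint 0 R hR), h3 s R hR, h3 0 R hR, ← mul_sub,
        Real.norm_eq_abs, abs_mul, abs_of_nonneg hR]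
    rw [e]
    have := norm_integral_le_of_norm_le_const (μ := haarNil) (C := 2 * C * |s|)
      (f := fun p => (∫ r in (0 : ℝ)..R, α (nilflow X r p) *
        f (tcflow X α s (nilflow X r p))) - ∫ r in (0 : ℝ)..R, α (nilflow X r p) *
        f (tcflow X α 0 (nilflow X r p))) (ae_of_all _ fun p => h2 p R)
    simpa using this
  have h5 : |(∫ p, α p * f (tcflow X α s p) ∂haarNil) -
      ∫ p, α p * f (tcflow X α 0 p) ∂haarNil| = 0 := by
    by_contra hne
    set d := |(∫ p, α p * f (tcflow X α s p) ∂haarNil) -
      ∫ p, α p * f (tcflow X α 0 p) ∂haarNil| with hd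
    have hd0 : 0 < d := lt_of_le_of_ne (abs_nonneg _) (Ne.symm hne)
    have := h4 ((2 * C * |s| + 1) / d) (by positivity)
    rw [div_mul_cancel₀ _ hd0.ne'] at this
    linarith
  rw [abs_eq_zero, sub_eq_zero] at h5
  rw [h5]
  simp only [tcflow_zero X hα hpos]

include hα hpos in
lemma lintegral_pos_fin : (∫⁻ p, ENNReal.ofReal (α p) ∂haarNil) ≠ 0 ∧
    (∫⁻ p, ENNReal.ofReal (α p) ∂haarNil) ≠ ∞ := by
  obtain ⟨δ, hδ0, hδ⟩ := exists_lower hα hpos
  obtain ⟨C, hC0, hC⟩ := exists_boundR hα
  constructor
  · have : ENNReal.ofReal δ ≤ ∫⁻ p, ENNReal.ofReal (α p) ∂haarNil := by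
      calc ENNReal.ofReal δ = ∫⁻ p : Nil, ENNReal.ofReal δ ∂haarNil := by simp
        _ ≤ _ := lintegral_mono fun p => ENNReal.ofReal_le_ofReal (hδ p)
    have h0 : 0 < ENNReal.ofReal δ := ENNReal.ofReal_pos.2 hδ0
    exact (lt_of_lt_of_le h0 this).ne'
  · have : ∫⁻ p, ENNReal.ofReal (α p) ∂haarNil ≤ ENNReal.ofReal C := by
      calc ∫⁻ p, ENNReal.ofReal (α p) ∂haarNil ≤ ∫⁻ p : Nil, ENNReal.ofReal C ∂haarNil :=
            lintegral_mono fun p => ENNReal.ofReal_le_ofReal ((le_abs_self _).trans (hC p))
        _ = ENNReal.ofReal C := by simp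
    exact (lt_of_le_of_lt this ENNReal.ofReal_lt_top).ne

include hα hpos in
lemma isProbabilityMeasure_dens : IsProbabilityMeasure (densMeasure haarNil α) := by
  obtain ⟨h0, h1⟩ := lintegral_pos_fin hα hpos
  refine ⟨?_⟩
  unfold densMeasure
  rw [Measure.smul_apply, withDensity_apply _ MeasurableSet.univ, Measure.restrict_univ, smul_eq_mul]
  exact ENNReal.inv_mul_cancel h0 h1

include hpos in
lemma integral_dens (hα : Continuous α) {f : Nil → ℝ} : ∫ p, f p ∂(densMeasure haarNil α) =
    ((∫⁻ p, ENNReal.ofReal (α p) ∂haarNil)⁻¹).toReal * ∫ p, α p * f p ∂haarNil := by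
  unfold densMeasure
  rw [integral_smul_measure, smul_eq_mul]
  congr 1
  rw [integral_withDensity_eq_integral_toReal_smul]
  · refine integral_congr_ae (ae_of_all _ fun p => ?_)
    simp only
    rw [ENNReal.toReal_ofReal (hpos p).le, smul_eq_mul]
  · exact hα.measurable.ennreal_ofReal
  · exact ae_of_all _ fun p => ENNReal.ofReal_lt_top

include hα hpos in
theorem measurePreserving_tcflow (s : ℝ) :
    MeasurePreserving (tcflow X α s) (densMeasure haarNil α) (densMeasure haarNil α) := by
  have := isProbabilityMeasure_dens hα hpos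
  refine ⟨measurable_tcflow X hα hpos s, ?_⟩
  have : IsFiniteMeasure (Measure.map (tcflow X α s) (densMeasure haarNil α)) :=
    Measure.isFiniteMeasure_map _ _
  refine ext_cont fun f hf => ?_
  rw [integral_map (measurable_tcflow X hα hpos s).aemeasurable hf.aestronglyMeasurable,
    integral_dens hpos hα, integral_dens hpos hα, integral_tcflow X hα hpos f hf s]

end

end Pool.Agent.N256.HN
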