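import Pool.Agent.N256.HN.Arith
import Pool.Agent.N256.HN.TC

/-!
# The time-change function
-/

set_option autoImplicit false

open MeasureTheory Filter Topology Set
open scoped ContDiff

namespace Pool.Agent.N256.HN

open Heis

/-- the function `Γ (x, y, z) ↦ F (q y - p x)` -/
def wave (F : ℝ → ℝ) (hF : Function.Periodic F 1) (q : ℕ) (p : ℤ) (P : Nil) : ℝ :=
  Quotient.lift (s := MulAction.orbitRel Gam Heis)
    (fun g : Heis => F (q * g.y - p * g.x)) (by
    rintro a b ⟨γ, rfl⟩
    obtain ⟨⟨m, hm⟩, ⟨n, hn⟩, _⟩ := γ.2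
    show F (q * ((γ : Heis).y + b.y) - p * ((γ : Heis).x + b.x)) = F (q * b.y - p * b.x)
    rw [hm, hn]
    have : (q : ℝ) * (n + b.y) - p * (m + b.x) = (q * b.y - p * b.x) + ((q * n - p * m : ℤ) : ℝ) * 1 := by
      push_cast
      ring
    rw [this]
    exact hF.int_mul _ _) P

section

variable {F : ℝ → ℝ} (hF : Function.Periodic F 1) (q : ℕ) (p : ℤ)

lemma wave_toNil (g : Heis) : wave F hF q p (toNil g) = F (q * g.y - p * g.x) := rfl

lemma continuous_wave (hc : Continuous F) : Continuous (wave F hF q p) := by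
  rw [isOpenQuotientMap_toNil.isQuotientMap.continuous_iff]
  exact hc.comp ((continuous_const.mul continuous_y).sub (continuous_const.mul continuous_x))

lemma wave_flow (a t : ℝ) (g : Heis) : wave F hF q p (nilflow (gen a) t (toNil g)) =
    F (q * g.y - p * g.x + t * (q * a - p)) := by
  unfold nilflow
  rw [toNil_mulR, wave_toNil, expo_gen]
  congr 1
  simp
  ring

lemma wave_zc (s : ℝ) (P : Nil) : wave F hF q p (P.mulR (zc s)) = wave F hF q p P := by
  obtain ⟨g, rfl⟩ := surjective_toNil P
  rw [toNil_mulR, wave_toNil, wave_toNil]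
  congr 1
  simp [zc]

end

namespace Data

variable (D : Data)

/-- `δ_k = q_k a - p_k` -/
noncomputable def δ (k : ℕ) : ℝ := D.q k * D.a - D.p k

lemma δ_ne (k : ℕ) : D.δ k ≠ 0 := by
  intro h
  unfold δ at h
  rw [sub_eq_zero] at h
  have h1 : Irrational ((D.q k : ℝ) * D.a) := D.irr.natCast_mul (D.qpos k).ne'
  rw [h] at h1
  exact h1.ne_int _ rfl

/-- the functions `u_k = G_k (q_k y - p_k x)` -/
noncomputable def u (k : ℕ) : Nil → ℝ := wave (D.G k) (D.per k) (D.q k) (D.p k)

lemma perD (k : ℕ) : Function.Periodic (deriv (D.G k)) 1 := by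
  intro w
  have h : (fun z => D.G k (z + 1)) = D.G k := funext fun z => D.per k z
  conv_rhs => rw [← h]
  rw [deriv_comp_add_const]

lemma smoothD (k : ℕ) : ContDiff ℝ ∞ (deriv (D.G k)) := by
  have := D.smooth k
  rw [contDiff_infty_iff_deriv] at this
  exact this.2

/-- the time-change function -/
noncomputable def α (P : Nil) : ℝ :=
  1 + ∑' k, D.δ k * wave (deriv (D.G k)) (D.perD k) (D.q k) (D.p k) P

lemma bound_term (k : ℕ) (x y : ℝ) : |D.δ k * deriv (D.G k) (D.q k * y - D.p k * x)| ≤ (1 / 2) ^ (k + 4) := by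
  have := D.bd k 0 (Nat.zero_le _) (x, y, 0)
  rw [norm_iteratedFDeriv_zero, Real.norm_eq_abs] at this
  exact this

lemma bound_wave (k : ℕ) (P : Nil) :
    |D.δ k * wave (deriv (D.G k)) (D.perD k) (D.q k) (D.p k) P| ≤ (1 / 2) ^ (k + 4) := by
  obtain ⟨g, rfl⟩ := surjective_toNil P
  exact D.bound_term k g.x g.y

lemma summable_half : Summable (fun k : ℕ => (1 / 2 : ℝ) ^ (k + 4)) := by
  simpa only [pow_add] using (summable_geometric_two).mul_right ((1 / 2 : ℝ) ^ 4)

lemma tsum_half : ∑' k : ℕ, (1 / 2 : ℝ) ^ (k + 4) = 1 / 8 := by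
  simp only [pow_add]
  rw [tsum_mul_right, tsum_geometric_two]
  norm_num

lemma smooth_alpha : SmoothOnNil D.α := by
  unfold SmoothOnNil α
  refine contDiff_const.add ?_
  have h1 : ∀ k, ContDiff ℝ ∞ (fun v : ℝ × ℝ × ℝ =>
      D.δ k * deriv (D.G k) (D.q k * v.2.1 - D.p k * v.1)) := by
    intro k
    refine contDiff_const.mul ((D.smoothD k).comp ?_)
    exact (contDiff_const.mul (contDiff_fst.comp contDiff_snd)).sub (contDiff_const.mul contDiff_fst)
  refine contDiff_tsum_of_eventually (v := fun _ k => (1 / 2 : ℝ) ^ (k + 4)) (f := fun k (v : ℝ × ℝ × ℝ) =>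
    D.δ k * deriv (D.G k) (D.q k * v.2.1 - D.p k * v.1)) h1 (fun _ _ => summable_half) ?_
  intro m _
  rw [Nat.cofinite_eq_atTop]
  filter_upwards [eventually_ge_atTop m] with k hk v
  exact D.bd k m hk v

lemma continuous_alpha : Continuous D.α := by
  rw [isOpenQuotientMap_toNil.isQuotientMap.continuous_iff]
  have h := D.smooth_alpha
  unfold SmoothOnNil at h
  exact h.continuous

lemma abs_alpha_sub (P : Nil) : |D.α P - 1| ≤ 1 / 8 := by
  unfold α
  rw [add_sub_cancel_left]
  have h := tsum_of_norm_bounded (f := fun k => D.δ k * wave (deriv (D.G k)) (D.perD k) (D.q k) (D.p k) P)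
    (g := fun k : ℕ => (1 / 2 : ℝ) ^ (k + 4)) (a := 1 / 8) ?_ (fun k => ?_)
  · exact h
  · rw [← tsum_half]
    exact summable_half.hasSum
  · rw [Real.norm_eq_abs]
    exact D.bound_wave k P

lemma alpha_pos (P : Nil) : 0 < D.α P := by
  have := abs_le.1 (D.abs_alpha_sub P)
  linarith [this.1]

lemma lip_G (k : ℕ) (w w' : ℝ) : |D.G k w - D.G k w'| ≤ D.L k * |w - w'| := by
  have := Convex.norm_image_sub_le_of_norm_deriv_le (f := D.G k) (s := univ) (C := D.L k)
    (x := w') (y := w) (fun x _ => ((D.smooth k).differentiable (by simp)).differentiableAt)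
    (fun x _ => D.lip k x) convex_univ (mem_univ _) (mem_univ _)
  simpa [Real.norm_eq_abs] using this

/-- The formula for the new time. -/
lemma hasSum_tau (g : Heis) (t : ℝ) : HasSum (fun k =>
    D.G k (D.q k * g.y - D.p k * g.x + t * D.δ k) - D.G k (D.q k * g.y - D.p k * g.x))
    (tau (gen D.a) D.α (toNil g) t - t) := by
  set w : ℕ → ℝ := fun k => D.q k * g.y - D.p k * g.x with hw
  have h1 : ∀ r : ℝ, D.α (nilflow (gen D.a) r (toNil g)) =
      1 + ∑' k, D.δ k * deriv (D.G k) (w k + r * D.δ k) := by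
    intro r
    unfold α
    congr 1
    refine tsum_congr fun k => ?_
    rw [wave_flow]
    rfl
  have hb : ∀ (k : ℕ) (r : ℝ), |D.δ k * deriv (D.G k) (w k + r * D.δ k)| ≤ (1 / 2) ^ (k + 4) := by
    intro k r
    have := D.bound_wave k (nilflow (gen D.a) r (toNil g))
    rw [wave_flow] at this
    exact this
  have h2 : tau (gen D.a) D.α (toNil g) t - t =
      ∫ r in (0 : ℝ)..t, ∑' k, D.δ k * deriv (D.G k) (w k + r * D.δ k) := by
    unfold tau
    simp only [h1]
    rw [intervalIntegral.integral_add]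
    · simp
    · exact intervalIntegrable_const
    · have : Continuous (fun r => ∑' k, D.δ k * deriv (D.G k) (w k + r * D.δ k)) := by
        have h3 := continuous_alpha_flow (gen D.a) D.continuous_alpha (toNil g)
        simp only [h1] at h3
        have h4 := h3.sub (continuous_const (y := (1 : ℝ)))
        refine h4.congr fun r => ?_
        simp
      exact this.intervalIntegrable _ _
  rw [h2]
  have h3 : ∀ k, ∫ r in (0 : ℝ)..t, D.δ k * deriv (D.G k) (w k + r * D.δ k) =
      D.G k (w k + t * D.δ k) - D.G k (w k) := by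
    intro k
    have hd : ∀ r ∈ uIcc 0 t, HasDerivAt (fun r => D.G k (w k + r * D.δ k))
        (D.δ k * deriv (D.G k) (w k + r * D.δ k)) r := by
      intro r _
      have e1 : HasDerivAt (D.G k) (deriv (D.G k) (w k + r * D.δ k)) (w k + r * D.δ k) :=
        ((D.smooth k).differentiable (by simp)).differentiableAt.hasDerivAt
      have e2 : HasDerivAt (fun r : ℝ => w k + r * D.δ k) (D.δ k) r := by
        simpa using ((hasDerivAt_id r).mul_const (D.δ k)).const_add (w k)
      have := e1.comp r e2
      rw [mul_comm]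
      exact this
    have := intervalIntegral.integral_eq_sub_of_hasDerivAt hd ?_
    · rw [this]
      simp
    · refine Continuous.intervalIntegrable ?_ _ _
      have := (D.smoothD k).continuous
      fun_prop
  have h4 := intervalIntegral.hasSum_integral_of_dominated_convergence (μ := volume) (a := 0) (b := t)
    (F := fun k r => D.δ k * deriv (D.G k) (w k + r * D.δ k))
    (f := fun r => ∑' k, D.δ k * deriv (D.G k) (w k + r * D.δ k))
    (bound := fun k _ => (1 / 2 : ℝ) ^ (k + 4)) ?_ ?_ ?_ ?_ ?_
  · simpa only [h3] using h4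
  · intro k
    refine Continuous.aestronglyMeasurable ?_
    have := (D.smoothD k).continuous
    fun_prop
  · intro k
    exact ae_of_all _ fun r _ => hb k r
  · exact ae_of_all _ fun r _ => summable_half
  · exact intervalIntegrable_const
  · refine ae_of_all _ fun r _ => Summable.hasSum ?_
    exact Summable.of_norm_bounded summable_half (fun k => hb k r)

end Data

end Pool.Agent.N256.HN
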