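import Pool.Agent.N256.HN.Bump

/-!
# The data of the construction
-/

set_option autoImplicit false

open MeasureTheory Filter Topology Set
open scoped ContDiff

namespace Pool.Agent.N256.HN

/-- very well approximable irrational numbers -/
lemma exists_liouville (Ψ : ℕ → ℕ → ℤ → ℝ) (hΨ : ∀ k q p, 0 < Ψ k q p) : ∃ a : ℝ, Irrational a ∧
    ∀ (k : ℕ) (Q : ℕ), ∃ q : ℕ, Q < q ∧ ∃ p : ℤ, |q * a - p| < Ψ k q p := by
  have h1 : ∀ k Q : ℕ, ∀ᶠ a in residual ℝ, ∃ q : ℕ, Q < q ∧ ∃ p : ℤ, |(q : ℝ) * a - p| < Ψ k q p := by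
    intro k Q
    have hopen : IsOpen {a : ℝ | ∃ q : ℕ, Q < q ∧ ∃ p : ℤ, |(q : ℝ) * a - p| < Ψ k q p} := by
      have : {a : ℝ | ∃ q : ℕ, Q < q ∧ ∃ p : ℤ, |(q : ℝ) * a - p| < Ψ k q p} =
          ⋃ (q : ℕ) (_ : Q < q) (p : ℤ), {a : ℝ | |(q : ℝ) * a - p| < Ψ k q p} := by
        ext a
        simp
      rw [this]
      refine isOpen_iUnion fun q => isOpen_iUnion fun _ => isOpen_iUnion fun p => ?_
      exact isOpen_lt (by fun_prop) continuous_const
    have hdense : Dense {a : ℝ | ∃ q : ℕ, Q < q ∧ ∃ p : ℤ, |(q : ℝ) * a - p| < Ψ k q p} := by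
      refine Dense.mono ?_ Rat.denseRange_cast
      rintro _ ⟨r, rfl⟩
      refine ⟨r.den * (Q + 1), ?_, r.num * (Q + 1), ?_⟩
      · have := r.den_pos
        nlinarith
      · have h : ((r.den * (Q + 1) : ℕ) : ℝ) * (r : ℝ) - ((r.num * (Q + 1) : ℤ) : ℝ) = 0 := by
          have h2 : (r : ℝ) = r.num / r.den := Rat.cast_def r
          have h3 : (r.den : ℝ) ≠ 0 := by exact_mod_cast r.den_nz
          push_cast
          rw [h2]
          field_simp
          ring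
        rw [h, abs_zero]
        exact hΨ _ _ _
    exact residual_of_dense_open hopen hdense
  have h2 : ∀ᶠ a in residual ℝ, ∀ k Q : ℕ, ∃ q : ℕ, Q < q ∧ ∃ p : ℤ, |(q : ℝ) * a - p| < Ψ k q p := by
    rw [eventually_countable_forall]
    intro k
    rw [eventually_countable_forall]
    exact h1 k
  have h3 : ∀ᶠ a in residual ℝ, Irrational a := by
    exact residual_of_dense_Gδ IsGδ.setOfPred_irrational dense_irrational
  obtain ⟨a, h⟩ := (dense_of_mem_residual (h3.and h2)).nonempty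
  exact ⟨a, h.1, h.2⟩

/-- The data of the construction. -/
structure Data where
  /-- the slope -/
  a : ℝ
  irr : Irrational a
  /-- the bump functions -/
  G : ℕ → ℝ → ℝ
  smooth : ∀ k, ContDiff ℝ ∞ (G k)
  per : ∀ k, Function.Periodic (G k) 1
  half : ∀ k w, G k (w + 1 / 2) = 1 - G k w
  small : ∀ k, volume (Ioc (0 : ℝ) 1 ∩ {w | G k w ≠ 0 ∧ G k w ≠ 1}) ≤ ENNReal.ofReal ((1 / 2) ^ (k + 3))
  q : ℕ → ℕ
  p : ℕ → ℤ
  qpos : ∀ k, 0 < q k
  qlarge : ∀ k, k ≤ q k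
  L : ℕ → ℝ
  Lpos : ∀ k, 1 ≤ L k
  lip : ∀ k w, |deriv (G k) w| ≤ L k
  bd : ∀ k, ∀ i ≤ k, ∀ v : ℝ × ℝ × ℝ, ‖iteratedFDeriv ℝ i
    (fun v : ℝ × ℝ × ℝ => (q k * a - p k) * deriv (G k) (q k * v.2.1 - p k * v.1)) v‖ ≤ (1 / 2) ^ (k + 4)
  c2 : ∀ j k, j < k → L j * q j * 2 ^ (j + 4) ≤ q k
  c3 : ∀ j k, j < k → L k * |q k * a - p k| * 2 ^ (k + 4) ≤ |q j * a - p j|
  c4 : ∀ k, q k * |q k * a - p k| * L k ≤ 1 / 16

lemma exists_data : Nonempty Data := by
  -- bumps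
  choose G hG1 hG2 hG3 hG4 using fun k : ℕ => exists_bump (ε := (1 / 2) ^ (k + 3)) (by positivity)
  have hH : ∀ k, ContDiff ℝ ∞ (deriv (G k)) := by
    intro k
    have := hG1 k
    rw [contDiff_infty_iff_deriv] at this
    exact this.2
  have hHp : ∀ k, Function.Periodic (deriv (G k)) 1 := by
    intro k w
    have h : (fun z => G k (z + 1)) = G k := funext fun z => hG2 k z
    conv_rhs => rw [← h]
    rw [deriv_comp_add_const]
  -- Lipschitz constants
  have hL : ∀ k, ∃ L : ℝ, 1 ≤ L ∧ ∀ w, |deriv (G k) w| ≤ L := by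
    intro k
    obtain ⟨C, hC0, hC⟩ := exists_bound_iter (hH k) (hHp k) 0
    refine ⟨C + 1, by linarith, fun w => ?_⟩
    have := hC w
    rw [norm_iteratedFDeriv_zero, Real.norm_eq_abs] at this
    linarith
  choose L hL1 hL using hL
  choose B hB0 hB using fun (k q : ℕ) (p : ℤ) => exists_bound_lin (hH k) (hHp k) k q p
  set Ψ : ℕ → ℕ → ℤ → ℝ := fun k q p => 1 / (2 ^ (k + 4) * (q + 1) * (B k q p + 1) * (L k + 1)) with hΨ
  have hΨpos : ∀ k q p, 0 < Ψ k q p := by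
    intro k q p
    have := hB0 k q p
    have := hL1 k
    simp only [hΨ]
    positivity
  obtain ⟨a, ha, hapx⟩ := exists_liouville Ψ hΨpos
  choose qq hqq pp hpp using hapx
  -- recursion for the bounds
  let next : ℕ → ℕ → ℕ := fun k Q => max Q (max ⌈L k * qq k Q * 2 ^ (k + 4)⌉₊
    (max ⌈1 / |qq k Q * a - pp k Q|⌉₊ (k + 1)))
  let QQ : ℕ → ℕ := fun k => Nat.rec 1 (fun k Q => next k Q) k
  have hQs : ∀ k, QQ (k + 1) = next k (QQ k) := fun k => rfl
  have hQmono : Monotone QQ := by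
    refine monotone_nat_of_le_succ fun k => ?_
    rw [hQs]
    exact le_max_left _ _
  have hq : ∀ k, QQ k < qq k (QQ k) := fun k => hqq k (QQ k)
  have hqpos : ∀ k, 0 < qq k (QQ k) := fun k => lt_of_le_of_lt (Nat.zero_le _) (hq k)
  have hδne : ∀ k, |(qq k (QQ k) : ℝ) * a - pp k (QQ k)| ≠ 0 := by
    intro k h
    rw [abs_eq_zero, sub_eq_zero] at h
    have h1 : Irrational ((qq k (QQ k) : ℝ) * a) := ha.natCast_mul (hqpos k).ne'
    rw [h] at h1
    exact h1.ne_int _ rfl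
  have hδ : ∀ k, |(qq k (QQ k) : ℝ) * a - pp k (QQ k)| < Ψ k (qq k (QQ k)) (pp k (QQ k)) :=
    fun k => hpp k (QQ k)
  refine ⟨⟨a, ha, G, hG1, hG2, hG3, hG4, fun k => qq k (QQ k), fun k => pp k (QQ k), hqpos, ?_,
    L, hL1, hL, ?_, ?_, ?_, ?_⟩⟩
  · intro k
    refine le_trans ?_ (hq k).le
    rcases k with _ | k
    · exact Nat.zero_le _
    · rw [hQs]
      exact le_max_of_le_right (le_max_of_le_right (le_max_right _ _))
  · intro k i hi v
    have hsm : ContDiff ℝ ∞ (fun v : ℝ × ℝ × ℝ => deriv (G k) (qq k (QQ k) * v.2.1 - pp k (QQ k) * v.1)) := by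
      have e : (fun v : ℝ × ℝ × ℝ => deriv (G k) (qq k (QQ k) * v.2.1 - pp k (QQ k) * v.1)) =
          deriv (G k) ∘ (lin (qq k (QQ k)) (pp k (QQ k))) := by
        ext v
        simp [lin_apply]
      rw [e]
      exact (hH k).comp (ContinuousLinearMap.contDiff _)
    have e2 : (fun v : ℝ × ℝ × ℝ => ((qq k (QQ k) : ℝ) * a - pp k (QQ k)) *
        deriv (G k) (qq k (QQ k) * v.2.1 - pp k (QQ k) * v.1)) =
        ((qq k (QQ k) : ℝ) * a - pp k (QQ k)) •
          fun v : ℝ × ℝ × ℝ => deriv (G k) (qq k (QQ k) * v.2.1 - pp k (QQ k) * v.1) := by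
      ext v
      simp
    rw [e2, iteratedFDeriv_const_smul_apply (hsm.contDiffAt.of_le (by exact_mod_cast le_top)),
      norm_smul, Real.norm_eq_abs]
    have h1 := hB k (qq k (QQ k)) (pp k (QQ k)) i hi v
    have h2 := (hδ k).le
    have h3 := hB0 k (qq k (QQ k)) (pp k (QQ k))
    have h4 := hL1 k
    calc |(qq k (QQ k) : ℝ) * a - pp k (QQ k)| * ‖iteratedFDeriv ℝ i (fun v : ℝ × ℝ × ℝ =>
          deriv (G k) (qq k (QQ k) * v.2.1 - pp k (QQ k) * v.1)) v‖
        ≤ Ψ k (qq k (QQ k)) (pp k (QQ k)) * B k (qq k (QQ k)) (pp k (QQ k)) := by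
          exact mul_le_mul h2 h1 (norm_nonneg _) (hΨpos _ _ _).le
      _ ≤ (1 / 2) ^ (k + 4) := by
          simp only [hΨ]
          rw [one_div, ← div_eq_inv_mul, div_le_iff₀ (by positivity)]
          have e3 : (1 / 2 : ℝ) ^ (k + 4) * (2 ^ (k + 4) * ((qq k (QQ k) : ℝ) + 1) *
              (B k (qq k (QQ k)) (pp k (QQ k)) + 1) * (L k + 1)) =
              ((qq k (QQ k) : ℝ) + 1) *
              (B k (qq k (QQ k)) (pp k (QQ k)) + 1) * (L k + 1) := by
            rw [one_div, inv_pow]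
            field_simp
          rw [e3]
          have h5 : (0 : ℝ) ≤ qq k (QQ k) := Nat.cast_nonneg _
          have h6 : B k (qq k (QQ k)) (pp k (QQ k)) ≤
              1 * (B k (qq k (QQ k)) (pp k (QQ k)) + 1) * 1 := by linarith
          refine h6.trans ?_
          have h7 : (1 : ℝ) ≤ (qq k (QQ k) : ℝ) + 1 := by linarith
          have h8 : (1 : ℝ) ≤ L k + 1 := by linarith
          gcongr
  · intro j k hjk
    have h1 : QQ (j + 1) ≤ QQ k := hQmono hjk
    have h2 : ⌈L j * qq j (QQ j) * 2 ^ (j + 4)⌉₊ ≤ QQ (j + 1) := by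
      rw [hQs]
      exact le_max_of_le_right (le_max_left _ _)
    have h3 : ⌈L j * qq j (QQ j) * 2 ^ (j + 4)⌉₊ ≤ qq k (QQ k) := (h2.trans h1).trans (hq k).le
    exact (Nat.le_ceil _).trans (by exact_mod_cast h3)
  · intro j k hjk
    have h1 : QQ (j + 1) ≤ QQ k := hQmono hjk
    have h2 : ⌈1 / |(qq j (QQ j) : ℝ) * a - pp j (QQ j)|⌉₊ ≤ QQ (j + 1) := by
      rw [hQs]
      exact le_max_of_le_right (le_max_of_le_right (le_max_left _ _))
    have h3 : ⌈1 / |(qq j (QQ j) : ℝ) * a - pp j (QQ j)|⌉₊ ≤ qq k (QQ k) :=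
      (h2.trans h1).trans (hq k).le
    have h4 : 1 / |(qq j (QQ j) : ℝ) * a - pp j (QQ j)| ≤ qq k (QQ k) :=
      (Nat.le_ceil _).trans (by exact_mod_cast h3)
    have hδj : 0 < |(qq j (QQ j) : ℝ) * a - pp j (QQ j)| :=
      lt_of_le_of_ne (abs_nonneg _) (hδne j).symm
    have hqk : (0 : ℝ) < qq k (QQ k) := by exact_mod_cast hqpos k
    rw [div_le_iff₀ hδj] at h4
    have h5 := (hδ k).le
    have h6 := hB0 k (qq k (QQ k)) (pp k (QQ k))
    have h7 := hL1 k
    calc L k * |(qq k (QQ k) : ℝ) * a - pp k (QQ k)| * 2 ^ (k + 4)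
        ≤ L k * Ψ k (qq k (QQ k)) (pp k (QQ k)) * 2 ^ (k + 4) := by gcongr
      _ ≤ 1 / qq k (QQ k) := by
          simp only [hΨ]
          rw [mul_one_div, div_mul_eq_mul_div, div_le_div_iff₀ (by positivity) hqk, one_mul]
          have h8 : (1 : ℝ) ≤ B k (qq k (QQ k)) (pp k (QQ k)) + 1 := by linarith
          calc L k * 2 ^ (k + 4) * (qq k (QQ k) : ℝ) = 2 ^ (k + 4) * (qq k (QQ k) : ℝ) * 1 * L k := by ring
            _ ≤ 2 ^ (k + 4) * ((qq k (QQ k) : ℝ) + 1) * (B k (qq k (QQ k)) (pp k (QQ k)) + 1) *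
                (L k + 1) := by
              gcongr <;> linarith
      _ ≤ |(qq j (QQ j) : ℝ) * a - pp j (QQ j)| := by
          rw [div_le_iff₀ hqk]
          linarith
  · intro k
    have h5 := (hδ k).le
    have h6 := hB0 k (qq k (QQ k)) (pp k (QQ k))
    have h7 := hL1 k
    have hqk : (0 : ℝ) < qq k (QQ k) := by exact_mod_cast hqpos k
    calc (qq k (QQ k) : ℝ) * |(qq k (QQ k) : ℝ) * a - pp k (QQ k)| * L k
        ≤ (qq k (QQ k) : ℝ) * Ψ k (qq k (QQ k)) (pp k (QQ k)) * L k := by gcongr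
      _ ≤ 1 / 16 := by
          simp only [hΨ]
          rw [mul_one_div, div_mul_eq_mul_div, div_le_div_iff₀ (by positivity) (by norm_num), one_mul]
          have h8 : (1 : ℝ) ≤ B k (qq k (QQ k)) (pp k (QQ k)) + 1 := by linarith
          have h9 : (16 : ℝ) ≤ 2 ^ (k + 4) := by
            rw [pow_add]
            have : (1 : ℝ) ≤ 2 ^ k := one_le_pow₀ (by norm_num)
            linarith
          calc (qq k (QQ k) : ℝ) * L k * 16 = 16 * (qq k (QQ k) : ℝ) * 1 * L k := by ring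
            _ ≤ 2 ^ (k + 4) * ((qq k (QQ k) : ℝ) + 1) * (B k (qq k (QQ k)) (pp k (QQ k)) + 1) *
                (L k + 1) := by
              gcongr <;> linarith

end Pool.Agent.N256.HN
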