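import Mathlib

/-!
# Smooth periodic functions which are almost everywhere almost integer valued
-/

set_option autoImplicit false

open MeasureTheory Filter Topology Set
open scoped ContDiff

namespace Pool.Agent.N256.HN

lemma st_symm (x : ℝ) : Real.smoothTransition (1 - x) = 1 - Real.smoothTransition x := by
  unfold Real.smoothTransition
  have h := Real.smoothTransition.pos_denom x
  rw [sub_sub_cancel, eq_sub_iff_add_eq, add_comm (expNegInvGlue (1 - x)), ← add_div]
  rw [add_comm (expNegInvGlue (1 - x)), div_self h.ne']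

lemma countable_zeros : {w : ℝ | Real.sin (2 * Real.pi * w) = 0}.Countable := by
  refine (countable_range (fun n : ℤ => (n : ℝ) / 2)).mono ?_
  intro w hw
  simp only [mem_ofPred_eq] at hw
  rw [Real.sin_eq_zero_iff] at hw
  obtain ⟨n, hn⟩ := hw
  refine ⟨n, ?_⟩
  have := Real.pi_pos
  simp only
  rw [div_eq_iff two_ne_zero]
  have h2 : Real.pi * ((n : ℝ) - w * 2) = 0 := by linarith
  rcases mul_eq_zero.1 h2 with h | h
  · exact absurd h this.ne'
  · linarith

/-- a smooth periodic function, equal to `0` or `1` off a small set, and symmetric -/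
lemma exists_bump {ε : ℝ} (hε : 0 < ε) : ∃ G : ℝ → ℝ, ContDiff ℝ ∞ G ∧ Function.Periodic G 1 ∧
    (∀ w, G (w + 1 / 2) = 1 - G w) ∧
    volume (Ioc (0 : ℝ) 1 ∩ {w | G w ≠ 0 ∧ G w ≠ 1}) ≤ ENNReal.ofReal ε := by
  set S : ℕ → Set ℝ := fun N => Ioc (0 : ℝ) 1 ∩ {w | |Real.sin (2 * Real.pi * w)| < 1 / (N + 1)} with hS
  have hSm : ∀ N, MeasurableSet (S N) := by
    intro N
    refine measurableSet_Ioc.inter ?_
    exact (isOpen_lt (by fun_prop) continuous_const).measurableSet
  have hanti : Antitone S := by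
    intro M N hMN w hw
    refine ⟨hw.1, lt_of_lt_of_le (b := 1 / ((N : ℝ) + 1)) hw.2 ?_⟩
    have : (M : ℝ) ≤ N := by exact_mod_cast hMN
    exact one_div_le_one_div_of_le (by positivity) (by linarith)
  have hlim := tendsto_measure_iInter_atTop (μ := volume) (s := S)
    (fun N => (hSm N).nullMeasurableSet) hanti ⟨0, by
      refine ((measure_mono inter_subset_left).trans_lt ?_).ne
      simp⟩
  have hzero : volume (⋂ N, S N) = 0 := by
    refine measure_mono_null (t := {w : ℝ | Real.sin (2 * Real.pi * w) = 0}) ?_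
      (countable_zeros.measure_zero _)
    intro w hw
    rw [mem_iInter] at hw
    simp only [mem_ofPred_eq]
    by_contra hne
    have hpos : 0 < |Real.sin (2 * Real.pi * w)| := abs_pos.2 hne
    obtain ⟨N, hN⟩ := exists_nat_one_div_lt hpos
    exact absurd (hw N).2 (not_lt.2 hN.le)
  rw [hzero] at hlim
  have hev := hlim.eventually (gt_mem_nhds (ENNReal.ofReal_pos.2 hε))
  obtain ⟨N, hN⟩ := hev.exists
  refine ⟨fun w => Real.smoothTransition (1 / 2 + (N + 1) * Real.sin (2 * Real.pi * w)), ?_, ?_, ?_, ?_⟩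
  · have h1 : ContDiff ℝ ∞ Real.smoothTransition := Real.smoothTransition.contDiff
    refine h1.comp ?_
    refine contDiff_const.add (contDiff_const.mul ?_)
    exact Real.contDiff_sin.comp (contDiff_const.mul contDiff_id)
  · intro w
    simp only
    congr 3
    rw [mul_add, mul_one, Real.sin_add_two_pi]
  · intro w
    rw [← st_symm]
    show Real.smoothTransition _ = _
    congr 1
    have : 2 * Real.pi * (w + 1 / 2) = 2 * Real.pi * w + Real.pi := by ring
    rw [this, Real.sin_add_pi]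
    ring
  · refine le_trans (measure_mono ?_) hN.le
    rintro w ⟨hw1, hw2, hw3⟩
    refine ⟨hw1, ?_⟩
    rw [Ne, Real.smoothTransition.zero_iff_nonpos, not_le] at hw2
    rw [Ne, Real.smoothTransition.eq_one_iff_one_le, not_le] at hw3
    simp only [mem_ofPred_eq]
    rw [lt_div_iff₀ (by positivity), ← abs_of_pos (show (0 : ℝ) < N + 1 by positivity), ← abs_mul,
      abs_lt]
    constructor <;> nlinarith

lemma periodic_iteratedFDeriv {F : ℝ → ℝ} (hp : Function.Periodic F 1) (m : ℕ) :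
    Function.Periodic (fun w => ‖iteratedFDeriv ℝ m F w‖) 1 := by
  intro w
  simp only
  rw [← iteratedFDeriv_comp_add_right]
  have : (fun z => F (z + 1)) = F := funext fun z => hp z
  rw [this]

lemma exists_bound_iter {F : ℝ → ℝ} (hF : ContDiff ℝ ∞ F) (hp : Function.Periodic F 1) (m : ℕ) :
    ∃ C : ℝ, 0 ≤ C ∧ ∀ w, ‖iteratedFDeriv ℝ m F w‖ ≤ C := by
  have hc : Continuous (fun w => ‖iteratedFDeriv ℝ m F w‖) :=
    (hF.continuous_iteratedFDeriv (by exact_mod_cast le_top)).norm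
  obtain ⟨C, hC⟩ := (isCompact_Icc (a := (0 : ℝ)) (b := 1)).exists_bound_of_continuousOn
    hc.continuousOn
  have key : ∀ w, ‖iteratedFDeriv ℝ m F w‖ ≤ C := by
    intro w
    obtain ⟨y, hy, hwy⟩ := (periodic_iteratedFDeriv hp m).exists_mem_Ico₀ one_pos w
    rw [hwy]
    have := hC y (Ico_subset_Icc_self hy)
    simpa using this
  exact ⟨C, (norm_nonneg _).trans (key 0), key⟩

/-- the linear form -/
noncomputable def lin (q : ℕ) (p : ℤ) : (ℝ × ℝ × ℝ) →L[ℝ] ℝ :=
  (q : ℝ) • ((ContinuousLinearMap.fst ℝ ℝ ℝ).comp (ContinuousLinearMap.snd ℝ ℝ (ℝ × ℝ))) -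
    (p : ℝ) • (ContinuousLinearMap.fst ℝ ℝ (ℝ × ℝ))

lemma lin_apply (q : ℕ) (p : ℤ) (v : ℝ × ℝ × ℝ) : lin q p v = q * v.2.1 - p * v.1 := by
  simp [lin]

lemma exists_bound_lin {F : ℝ → ℝ} (hF : ContDiff ℝ ∞ F) (hp : Function.Periodic F 1) (k q : ℕ)
    (p : ℤ) : ∃ B : ℝ, 0 < B ∧ ∀ m ≤ k, ∀ v : ℝ × ℝ × ℝ,
      ‖iteratedFDeriv ℝ m (fun v : ℝ × ℝ × ℝ => F (q * v.2.1 - p * v.1)) v‖ ≤ B := by
  choose C hC0 hC using fun m => exists_bound_iter hF hp m
  refine ⟨1 + ∑ m ∈ Finset.range (k + 1), C m * ‖lin q p‖ ^ m, ?_, ?_⟩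
  · have : 0 ≤ ∑ m ∈ Finset.range (k + 1), C m * ‖lin q p‖ ^ m :=
      Finset.sum_nonneg fun m _ => mul_nonneg (hC0 m) (by positivity)
    linarith
  · intro m hm v
    have e : (fun v : ℝ × ℝ × ℝ => F (q * v.2.1 - p * v.1)) = F ∘ (lin q p) := by
      ext v
      simp [lin_apply]
    rw [e, ContinuousLinearMap.iteratedFDeriv_comp_right (lin q p) hF v
      (by exact_mod_cast le_top)]
    refine (ContinuousMultilinearMap.norm_compContinuousLinearMap_le _ _).trans ?_
    rw [Finset.prod_const, Finset.card_univ, Fintype.card_fin]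
    have h1 : ‖iteratedFDeriv ℝ m F (lin q p v)‖ * ‖lin q p‖ ^ m ≤ C m * ‖lin q p‖ ^ m := by
      gcongr
      exact hC m _
    have h2 : C m * ‖lin q p‖ ^ m ≤ ∑ m ∈ Finset.range (k + 1), C m * ‖lin q p‖ ^ m :=
      Finset.single_le_sum (f := fun m => C m * ‖lin q p‖ ^ m)
        (fun m _ => mul_nonneg (hC0 m) (by positivity)) (Finset.mem_range.2 (by omega))
    linarith

end Pool.Agent.N256.HN
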