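import Mathlib

/-!
# The Heisenberg nilmanifold, nilflows and time-changes: definitions
-/

set_option autoImplicit false

open MeasureTheory Filter Topology Set
open scoped ENNReal ContDiff

namespace Pool.Agent.N256.HN

/-- The real Heisenberg group of the matrices `[[1, x, z], [0, 1, y], [0, 0, 1]]`, in the coordinates
`(x, y, z)`. -/
def Heis : Type := ℝ × ℝ × ℝ

namespace Heis

/-- The element with coordinates `(a, b, c)`. -/
def mk (a b c : ℝ) : Heis := (a, b, c)

/-- The first coordinate. -/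
def x (g : Heis) : ℝ := Prod.fst g

/-- The second coordinate. -/
def y (g : Heis) : ℝ := Prod.fst (Prod.snd g)

/-- The third coordinate. -/
def z (g : Heis) : ℝ := Prod.snd (Prod.snd g)

@[simp] lemma x_mk (a b c : ℝ) : (mk a b c).x = a := rfl
@[simp] lemma y_mk (a b c : ℝ) : (mk a b c).y = b := rfl
@[simp] lemma z_mk (a b c : ℝ) : (mk a b c).z = c := rfl

lemma eta (g : Heis) : mk g.x g.y g.z = g := rfl

@[ext] lemma ext {g h : Heis} (hx : g.x = h.x) (hy : g.y = h.y) (hz : g.z = h.z) : g = h := by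
  rw [← eta g, ← eta h, hx, hy, hz]

/-- The group law: `(x, y, z) (x', y', z') = (x + x', y + y', z + z' + x y')`. -/
instance : Group Heis where
  mul g h := mk (g.x + h.x) (g.y + h.y) (g.z + h.z + g.x * h.y)
  one := mk 0 0 0
  inv g := mk (-g.x) (-g.y) (-g.z + g.x * g.y)
  mul_assoc g h k := by
    apply ext
    · show g.x + h.x + k.x = g.x + (h.x + k.x); ring
    · show g.y + h.y + k.y = g.y + (h.y + k.y); ring
    · show g.z + h.z + g.x * h.y + k.z + (g.x + h.x) * k.y
        = g.z + (h.z + k.z + h.x * k.y) + g.x * (h.y + k.y)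
      ring
  one_mul g := by
    apply ext
    · show 0 + g.x = g.x; ring
    · show 0 + g.y = g.y; ring
    · show 0 + g.z + 0 * g.y = g.z; ring
  mul_one g := by
    apply ext
    · show g.x + 0 = g.x; ring
    · show g.y + 0 = g.y; ring
    · show g.z + 0 + g.x * 0 = g.z; ring
  inv_mul_cancel g := by
    apply ext
    · show -g.x + g.x = 0; ring
    · show -g.y + g.y = 0; ring
    · show -g.z + g.x * g.y + g.z + (-g.x) * g.y = 0; ring

@[simp] lemma mul_x (g h : Heis) : (g * h).x = g.x + h.x := rfl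
@[simp] lemma mul_y (g h : Heis) : (g * h).y = g.y + h.y := rfl
@[simp] lemma mul_z (g h : Heis) : (g * h).z = g.z + h.z + g.x * h.y := rfl
@[simp] lemma one_x : (1 : Heis).x = 0 := rfl
@[simp] lemma one_y : (1 : Heis).y = 0 := rfl
@[simp] lemma one_z : (1 : Heis).z = 0 := rfl
@[simp] lemma inv_x (g : Heis) : (g⁻¹).x = -g.x := rfl
@[simp] lemma inv_y (g : Heis) : (g⁻¹).y = -g.y := rfl
@[simp] lemma inv_z (g : Heis) : (g⁻¹).z = -g.z + g.x * g.y := rfl

instance : TopologicalSpace Heis := inferInstanceAs (TopologicalSpace (ℝ × ℝ × ℝ))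

instance : PolishSpace Heis := inferInstanceAs (PolishSpace (ℝ × ℝ × ℝ))

instance : LocallyCompactSpace Heis := inferInstanceAs (LocallyCompactSpace (ℝ × ℝ × ℝ))

instance : SecondCountableTopology Heis := inferInstanceAs (SecondCountableTopology (ℝ × ℝ × ℝ))

lemma continuous_x : Continuous x := continuous_fst (X := ℝ) (Y := ℝ × ℝ)
lemma continuous_y : Continuous y :=
  (continuous_fst (X := ℝ) (Y := ℝ)).comp (continuous_snd (X := ℝ) (Y := ℝ × ℝ))
lemma continuous_z : Continuous z :=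
  (continuous_snd (X := ℝ) (Y := ℝ)).comp (continuous_snd (X := ℝ) (Y := ℝ × ℝ))

lemma continuous_mk {X : Type*} [TopologicalSpace X] {f g h : X → ℝ}
    (hf : Continuous f) (hg : Continuous g) (hh : Continuous h) :
    Continuous (fun t => mk (f t) (g t) (h t)) := hf.prodMk (hg.prodMk hh)

instance : IsTopologicalGroup Heis where
  continuous_mul := by
    refine continuous_mk ?_ ?_ ?_
    · exact (continuous_x.comp continuous_fst).add (continuous_x.comp continuous_snd)
    · exact (continuous_y.comp continuous_fst).add (continuous_y.comp continuous_snd)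
    · exact ((continuous_z.comp continuous_fst).add (continuous_z.comp continuous_snd)).add
        ((continuous_x.comp continuous_fst).mul (continuous_y.comp continuous_snd))
  continuous_inv := by
    refine continuous_mk ?_ ?_ ?_
    · exact continuous_x.neg
    · exact continuous_y.neg
    · exact continuous_z.neg.add (continuous_x.mul continuous_y)

end Heis

open Heis

/-- The Lie algebra of strictly upper triangular matrices `[[0, a, c], [0, 0, b], [0, 0, 0]]`, written
`(a, b, c)`, has the bracket `[(a, b, c), (a', b', c')] = (0, 0, a b' - a' b)`. -/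
def bracket (X Y : ℝ × ℝ × ℝ) : ℝ × ℝ × ℝ := (0, 0, X.1 * Y.2.1 - Y.1 * X.2.1)

/-- The matrix exponential of `t (a, b, c)`. -/
noncomputable def expo (X : ℝ × ℝ × ℝ) (t : ℝ) : Heis :=
  mk (t * X.1) (t * X.2.1) (t * X.2.2 + t ^ 2 * X.1 * X.2.1 / 2)

/-- The lattice of integer matrices. -/
def Gam : Subgroup Heis where
  carrier := {g | (∃ p : ℤ, g.x = p) ∧ (∃ q : ℤ, g.y = q) ∧ ∃ r : ℤ, g.z = r}
  mul_mem' := by
    rintro g h ⟨⟨p, hp⟩, ⟨q, hq⟩, ⟨r, hr⟩⟩ ⟨⟨p', hp'⟩, ⟨q', hq'⟩, ⟨r', hr'⟩⟩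
    refine ⟨⟨p + p', ?_⟩, ⟨q + q', ?_⟩, ⟨r + r' + p * q', ?_⟩⟩
    · simp [hp, hp']
    · simp [hq, hq']
    · simp [hp, hr, hr', hq']
  one_mem' := ⟨⟨0, by simp⟩, ⟨0, by simp⟩, ⟨0, by simp⟩⟩
  inv_mem' := by
    rintro g ⟨⟨p, hp⟩, ⟨q, hq⟩, ⟨r, hr⟩⟩
    refine ⟨⟨-p, ?_⟩, ⟨-q, ?_⟩, ⟨-r + p * q, ?_⟩⟩
    · simp [hp]
    · simp [hq]
    · simp [hp, hr, hq]

/-- The Heisenberg nilmanifold `Γ \ G`: the quotient of the Heisenberg group by the left multiplications
with elements of `Γ`. -/
def Nil : Type := MulAction.orbitRel.Quotient Gam Heis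

instance : TopologicalSpace Nil :=
  inferInstanceAs (TopologicalSpace (Quotient (MulAction.orbitRel Gam Heis)))

/-- The Borel `σ`-algebra of `Γ \ G`. -/
instance : MeasurableSpace Nil := borel Nil

instance : BorelSpace Nil := ⟨rfl⟩

/-- The projection `g ↦ Γ g`. -/
def toNil (g : Heis) : Nil := (Quotient.mk (MulAction.orbitRel Gam Heis) g)

/-- Right multiplication `(Γ h, g) ↦ Γ h g`. -/
def Nil.mulR (p : Nil) (g : Heis) : Nil :=
  Quotient.lift (s := MulAction.orbitRel Gam Heis) (fun h => toNil (h * g)) (by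
    rintro a b ⟨γ, rfl⟩
    refine Quotient.sound ⟨γ, ?_⟩
    show (γ : Heis) * (b * g) = (γ : Heis) * b * g
    rw [mul_assoc]) p

/-- The nilflow `φ_t (Γ g) = Γ g exp (t X)`. -/
noncomputable def nilflow (X : ℝ × ℝ × ℝ) (t : ℝ) (p : Nil) : Nil := p.mulR (expo X t)

/-- A function on `Γ \ G` is smooth if its lift to `G = ℝ³` is. -/
def SmoothOnNil (α : Nil → ℝ) : Prop :=
  ContDiff ℝ ∞ (fun w : ℝ × ℝ × ℝ => α (toNil (mk w.1 w.2.1 w.2.2)))

/-- `μ` is the normalised Haar measure of `Γ \ G`: the probability measure which is invariant under all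
right multiplications. -/
def IsHaarNil (μ : Measure Nil) : Prop :=
  IsProbabilityMeasure μ ∧ ∀ g : Heis, MeasurePreserving (fun p : Nil => p.mulR g) μ μ

/-- The flow `φ` is uniquely ergodic with invariant probability measure `μ`. -/
def UniquelyErgodic (φ : ℝ → Nil → Nil) (μ : Measure Nil) : Prop :=
  ∀ ν : Measure Nil, IsProbabilityMeasure ν ∧ (∀ t, MeasurePreserving (φ t) ν ν) ↔ ν = μ

/-- `ψ` is the time-change of the flow `φ` given by the function `α`, that is the flow with the same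
orbits and the generator `X / α` if `X` is the generator of `φ`:
`ψ_s (p) = φ_t (p)` for `s = ∫_0^t α (φ_r p) dr`. -/
def IsTimeChange (φ : ℝ → Nil → Nil) (α : Nil → ℝ) (ψ : ℝ → Nil → Nil) : Prop :=
  ∀ p t, ψ (∫ r in (0 : ℝ)..t, α (φ r p)) p = φ t p

/-- `α` is measurably cohomologous to a constant: there are a constant `c` and a measurable `u` such
that for all `t` and almost all `p`: `u (φ_t p) - u (p) = ∫_0^t (α - c) (φ_s p) ds`. -/
def MeasurablyTrivial (φ : ℝ → Nil → Nil) (μ : Measure Nil) (α : Nil → ℝ) : Prop :=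
  ∃ (c : ℝ) (u : Nil → ℝ), Measurable u ∧
    ∀ t : ℝ, ∀ᵐ p ∂μ, u (φ t p) - u p = ∫ s in (0 : ℝ)..t, (α (φ s p) - c)

/-- The probability measure proportional to `α dμ`. -/
noncomputable def densMeasure (μ : Measure Nil) (α : Nil → ℝ) : Measure Nil :=
  (∫⁻ p, ENNReal.ofReal (α p) ∂μ)⁻¹ • μ.withDensity fun p => ENNReal.ofReal (α p)

/-- Mixing of the flow `ψ` with respect to `ν`. -/
def Mixing (ψ : ℝ → Nil → Nil) (ν : Measure Nil) : Prop :=
  ∀ A B : Set Nil, MeasurableSet A → MeasurableSet B →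
    Tendsto (fun t : ℝ => ν.real (ψ t '' A ∩ B)) atTop (𝓝 (ν.real A * ν.real B))

/-- Weak mixing of the flow `ψ` with respect to `ν`. -/
def WeaklyMixing (ψ : ℝ → Nil → Nil) (ν : Measure Nil) : Prop :=
  ∀ A B : Set Nil, MeasurableSet A → MeasurableSet B →
    Tendsto (fun t : ℝ => (1 / t) * ∫ s in (0 : ℝ)..t, |ν.real (ψ s '' A ∩ B) - ν.real A * ν.real B|)
      atTop (𝓝 0)

end Pool.Agent.N256.HN
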