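import Pool.Agent.N256.HN.Alpha

/-!
# Distribution of the functions `u_k`
-/

set_option autoImplicit false

open MeasureTheory Filter Topology Set
open scoped ENNReal

namespace Pool.Agent.N256.HN

open Heis

/-- the character -/
noncomputable def chi (q : ℕ) (p : ℤ) (P : Nil) : UnitAddCircle := q • (torus P).2 - p • (torus P).1

lemma chi_toNil (q : ℕ) (p : ℤ) (g : Heis) :
    chi q p (toNil g) = ((q * g.y - p * g.x : ℝ) : UnitAddCircle) := by
  unfold chi
  rw [torus_toNil, AddCircle.coe_sub, ← nsmul_eq_mul, ← zsmul_eq_mul]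
  rfl

lemma continuous_chi (q : ℕ) (p : ℤ) : Continuous (chi q p) := by
  unfold chi
  have := continuous_torus
  fun_prop

lemma chi_mulR (q : ℕ) (p : ℤ) (P : Nil) (t : ℝ) :
    chi q p (P.mulR (mk 0 t 0)) = ((q * t : ℝ) : UnitAddCircle) + chi q p P := by
  obtain ⟨g, rfl⟩ := surjective_toNil P
  rw [toNil_mulR, chi_toNil, chi_toNil, ← AddCircle.coe_add]
  congr 1
  simp
  ring

lemma wave_eq {F : ℝ → ℝ} (hF : Function.Periodic F 1) (q : ℕ) (p : ℤ) (P : Nil) :
    wave F hF q p P = hF.lift (chi q p P) := by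
  obtain ⟨g, rfl⟩ := surjective_toNil P
  rw [wave_toNil, chi_toNil]
  rfl

lemma circle_unique {ρ : Measure UnitAddCircle} [IsProbabilityMeasure ρ]
    (hρ : ∀ v : UnitAddCircle, Measure.map (fun w => v + w) ρ = ρ) : ρ = volume := by
  have h0 : IsProbabilityMeasure (volume : Measure UnitAddCircle) := ⟨UnitAddCircle.measure_univ⟩
  have h1 : ρ.IsAddLeftInvariant := ⟨hρ⟩
  have h3 : ρ.IsAddHaarMeasure := Measure.isAddHaarMeasure_of_isCompact_nonempty_interior ρ univ
    isCompact_univ (by simp) (by simp) (by simp)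
  exact Measure.isAddHaarMeasure_eq_of_isProbabilityMeasure ρ volume

lemma map_chi {q : ℕ} (hq : 0 < q) (p : ℤ) : Measure.map (chi q p) haarNil = volume := by
  have hp1 : IsProbabilityMeasure (Measure.map (chi q p) haarNil) :=
    Measure.isProbabilityMeasure_map (continuous_chi q p).measurable.aemeasurable
  refine circle_unique fun v => ?_
  obtain ⟨t, rfl⟩ := QuotientAddGroup.mk_surjective v
  conv_rhs => rw [← (measurePreserving_haar (mk 0 (t / q) 0)).map_eq]
  rw [Measure.map_map (measurable_const_add _) (continuous_chi q p).measurable,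
    Measure.map_map (continuous_chi q p).measurable (measurable_mulR _)]
  congr 1
  ext P
  simp only [Function.comp]
  rw [chi_mulR]
  congr 2
  have : (q : ℝ) ≠ 0 := by exact_mod_cast hq.ne'
  field_simp

lemma measure_wave {F : ℝ → ℝ} (hF : Function.Periodic F 1) (hc : Continuous F) {q : ℕ} (hq : 0 < q)
    (p : ℤ) {S : Set ℝ} (hS : MeasurableSet S) :
    haarNil {P | wave F hF q p P ∈ S} = volume (Ioc (0 : ℝ) 1 ∩ {w | F w ∈ S}) := by
  have hl : Measurable (hF.lift : UnitAddCircle → ℝ) := by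
    have : Continuous (hF.lift : UnitAddCircle → ℝ) := by
      have h : IsQuotientMap ((↑) : ℝ → UnitAddCircle) := isQuotientMap_quotient_mk'
      rw [h.continuous_iff]
      exact hc
    exact this.measurable
  have e1 : {P | wave F hF q p P ∈ S} = chi q p ⁻¹' (hF.lift ⁻¹' S) := by
    ext P
    simp only [mem_ofPred_eq, mem_preimage]
    rw [wave_eq]
  rw [e1, ← Measure.map_apply (continuous_chi q p).measurable (hl hS), map_chi hq,
    ← (UnitAddCircle.measurePreserving_mk 0).map_eq,
    Measure.map_apply (AddCircle.measurable_mk') (hl hS), Measure.restrict_apply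
      (AddCircle.measurable_mk' (hl hS)), zero_add, inter_comm]
  rfl

namespace Data

variable (D : Data)

lemma continuous_u (k : ℕ) : Continuous (D.u k) := continuous_wave _ _ _ (D.smooth k).continuous

lemma measure_bad (k : ℕ) : haarNil {P | D.u k P ≠ 0 ∧ D.u k P ≠ 1} ≤
    ENNReal.ofReal ((1 / 2) ^ (k + 3)) := by
  have h := measure_wave (D.per k) (D.smooth k).continuous (D.qpos k) (D.p k)
    (S := {x | x ≠ 0 ∧ x ≠ 1}) (by
      have : {x : ℝ | x ≠ 0 ∧ x ≠ 1} = ({0}ᶜ ∩ {1}ᶜ : Set ℝ) := by ext; simp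
      rw [this]
      exact (measurableSet_singleton _).compl.inter (measurableSet_singleton _).compl)
  exact h.le.trans (D.small k)

lemma u_half (k : ℕ) (P : Nil) : D.u k (P.mulR (Heis.mk 0 (1 / (2 * D.q k)) 0)) = 1 - D.u k P := by
  obtain ⟨g, rfl⟩ := surjective_toNil P
  unfold u
  rw [toNil_mulR, wave_toNil, wave_toNil, ← D.half]
  congr 1
  have : (D.q k : ℝ) ≠ 0 := by exact_mod_cast (D.qpos k).ne'
  simp
  field_simp
  ring

lemma measure_eq (k : ℕ) : haarNil {P | D.u k P = 0} = haarNil {P | D.u k P = 1} := by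
  have hm : MeasurableSet {P | D.u k P = 1} :=
    (D.continuous_u k).measurable (measurableSet_singleton 1)
  rw [← (measurePreserving_haar (Heis.mk 0 (1 / (2 * D.q k)) 0)).measure_preimage hm.nullMeasurableSet]
  congr 1
  ext P
  simp only [mem_ofPred_eq, mem_preimage]
  rw [D.u_half]
  constructor
  · intro h; rw [h]; norm_num
  · intro h; linarith

lemma measure_01 (k : ℕ) : (3 / 8 : ℝ) ≤ haarNil.real {P | D.u k P = 0} ∧
    (3 / 8 : ℝ) ≤ haarNil.real {P | D.u k P = 1} := by
  have h1 : haarNil.real {P | D.u k P = 0} = haarNil.real {P | D.u k P = 1} := by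
    unfold Measure.real
    rw [D.measure_eq k]
  have h2 : haarNil.real {P | D.u k P ≠ 0 ∧ D.u k P ≠ 1} ≤ 1 / 8 := by
    have := ENNReal.toReal_mono ENNReal.ofReal_ne_top (D.measure_bad k)
    rw [ENNReal.toReal_ofReal (by positivity)] at this
    refine this.trans ?_
    rw [pow_add]
    have : (1 / 2 : ℝ) ^ k ≤ 1 := pow_le_one₀ (by norm_num) (by norm_num)
    linarith
  have h3 : (univ : Set Nil) ⊆ {P | D.u k P = 0} ∪ ({P | D.u k P = 1} ∪
      {P | D.u k P ≠ 0 ∧ D.u k P ≠ 1}) := by
    intro P _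
    simp only [mem_union, mem_ofPred_eq]
    tauto
  have h4 : (1 : ℝ) ≤ haarNil.real {P | D.u k P = 0} + (haarNil.real {P | D.u k P = 1} +
      haarNil.real {P | D.u k P ≠ 0 ∧ D.u k P ≠ 1}) := by
    calc (1 : ℝ) = haarNil.real univ := by simp
      _ ≤ _ := measureReal_mono h3
      _ ≤ haarNil.real {P | D.u k P = 0} + haarNil.real ({P | D.u k P = 1} ∪
          {P | D.u k P ≠ 0 ∧ D.u k P ≠ 1}) := measureReal_union_le _ _
      _ ≤ _ := by
          gcongr
          exact measureReal_union_le _ _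
  constructor <;> linarith

end Data

end Pool.Agent.N256.HN
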