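import Pool.Agent.N256.HN.Dist

/-!
# The eigenfunction of the time-changed flow
-/

set_option autoImplicit false

open MeasureTheory Filter Topology Set
open scoped ENNReal

namespace Pool.Agent.N256.HN

open Heis

namespace Data

variable (D : Data)

/-- partial sums of the argument of the eigenfunction -/
noncomputable def part (N : ℕ) (P : Nil) : UnitAddCircle :=
  (torus P).1 + ((∑ k ∈ Finset.range N, D.u k P : ℝ) : UnitAddCircle)

/-- the argument of the eigenfunction -/
noncomputable def θ (P : Nil) : UnitAddCircle := limUnder atTop (fun N => D.part N P)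

/-- the set of convergence -/
def E : Set Nil := {P | ∃ c, Tendsto (fun N => D.part N P) atTop (𝓝 c)}

lemma continuous_part (N : ℕ) : Continuous (D.part N) := by
  unfold part
  refine (continuous_fst.comp continuous_torus).add ((AddCircle.continuous_mk' 1).comp ?_)
  exact continuous_finsetSum _ fun k _ => D.continuous_u k

lemma measurable_θ : Measurable D.θ := by
  have : StronglyMeasurable D.θ := StronglyMeasurable.limUnder
    (fun N => (D.continuous_part N).stronglyMeasurable)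
  exact this.measurable

lemma tendsto_θ {P : Nil} (hP : P ∈ D.E) : Tendsto (fun N => D.part N P) atTop (𝓝 (D.θ P)) :=
  tendsto_nhds_limUnder hP

lemma u_flow (k : ℕ) (g : Heis) (t : ℝ) : D.u k (nilflow (gen D.a) t (toNil g)) =
    D.G k (D.q k * g.y - D.p k * g.x + t * D.δ k) := by
  unfold u
  rw [wave_flow]
  rfl

lemma u_toNil (k : ℕ) (g : Heis) : D.u k (toNil g) = D.G k (D.q k * g.y - D.p k * g.x) := rfl

lemma hasSum_u (P : Nil) (t : ℝ) : HasSum (fun k => D.u k (nilflow (gen D.a) t P) - D.u k P)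
    (tau (gen D.a) D.α P t - t) := by
  obtain ⟨g, rfl⟩ := surjective_toNil P
  have := D.hasSum_tau g t
  simpa only [u_flow, u_toNil] using this

lemma part_flow (N : ℕ) (P : Nil) (t : ℝ) : D.part N (nilflow (gen D.a) t P) = D.part N P +
    ((t + ∑ k ∈ Finset.range N, (D.u k (nilflow (gen D.a) t P) - D.u k P) : ℝ) : UnitAddCircle) := by
  unfold part
  have h1 : (torus (nilflow (gen D.a) t P)).1 = (torus P).1 + ((t : ℝ) : UnitAddCircle) := by
    unfold nilflow
    rw [torus_mulR, expo_gen]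
    rfl
  rw [h1, Finset.sum_sub_distrib, AddCircle.coe_add, AddCircle.coe_sub]
  abel

lemma flow_mem {P : Nil} (hP : P ∈ D.E) (t : ℝ) : nilflow (gen D.a) t P ∈ D.E ∧
    D.θ (nilflow (gen D.a) t P) = D.θ P + ((tau (gen D.a) D.α P t : ℝ) : UnitAddCircle) := by
  have h1 : Tendsto (fun N => D.part N (nilflow (gen D.a) t P)) atTop
      (𝓝 (D.θ P + ((tau (gen D.a) D.α P t : ℝ) : UnitAddCircle))) := by
    simp only [part_flow]
    refine (D.tendsto_θ hP).add ?_
    have h2 := (D.hasSum_u P t).tendsto_sum_nat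
    have h3 := h2.const_add t
    rw [add_sub_cancel] at h3
    exact ((AddCircle.continuous_mk' 1).tendsto _).comp h3
  exact ⟨⟨_, h1⟩, tendsto_nhds_unique (D.tendsto_θ ⟨_, h1⟩) h1⟩

/-- the time-changed flow -/
noncomputable def ψ : ℝ → Nil → Nil := tcflow (gen D.a) D.α

lemma ψ_mem {P : Nil} (hP : P ∈ D.E) (s : ℝ) : D.ψ s P ∈ D.E ∧
    D.θ (D.ψ s P) = D.θ P + ((s : ℝ) : UnitAddCircle) := by
  have h := D.flow_mem hP (tinv (gen D.a) D.α P s)
  rw [tau_tinv _ D.continuous_alpha D.alpha_pos] at h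
  exact h

lemma ae_mem : ∀ᵐ P ∂haarNil, P ∈ D.E := by
  have hs : ∑' k, haarNil {P | D.u k P ≠ 0 ∧ D.u k P ≠ 1} ≠ ∞ := by
    have h1 : ∑' k, haarNil {P | D.u k P ≠ 0 ∧ D.u k P ≠ 1} ≤
        ∑' k : ℕ, ENNReal.ofReal ((1 / 2) ^ (k + 3)) := ENNReal.tsum_le_tsum fun k => D.measure_bad k
    have h2 : Summable (fun k : ℕ => (1 / 2 : ℝ) ^ (k + 3)) := by
      simpa only [pow_add] using (summable_geometric_two).mul_right ((1 / 2 : ℝ) ^ 3)
    rw [← ENNReal.ofReal_tsum_of_nonneg (fun k => by positivity) h2] at h1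
    exact (lt_of_le_of_lt h1 ENNReal.ofReal_lt_top).ne
  filter_upwards [ae_eventually_notMem hs] with P hP
  -- the partial sums are eventually constant
  rw [eventually_atTop] at hP
  obtain ⟨K, hK⟩ := hP
  refine ⟨D.part K P, ?_⟩
  refine tendsto_const_nhds.congr' ?_
  filter_upwards [eventually_ge_atTop K] with N hN
  induction N, hN using Nat.le_induction with
  | base => rfl
  | succ N hN ih =>
    rw [ih]
    unfold part
    rw [Finset.sum_range_succ, AddCircle.coe_add]
    have h1 := hK N hN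
    simp only [not_and_or, not_not] at h1
    rcases h1 with h | h
    · rw [h]; simp
    · rw [h]
      have : ((1 : ℝ) : UnitAddCircle) = 0 := by
        have := AddCircle.coe_period (p := (1 : ℝ))
        exact this
      rw [this, add_zero]

/-- the invariant measure of the time-changed flow -/
noncomputable def ν : Measure Nil := densMeasure haarNil D.α

instance : IsProbabilityMeasure D.ν := isProbabilityMeasure_dens D.continuous_alpha D.alpha_pos

lemma ae_mem' : ∀ᵐ P ∂D.ν, P ∈ D.E := by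
  have : D.ν ≪ haarNil := by
    unfold ν densMeasure
    exact (withDensity_absolutelyContinuous _ _).smul_left _
  exact this.ae_le D.ae_mem

lemma mp_ψ (s : ℝ) : MeasurePreserving (D.ψ s) D.ν D.ν :=
  measurePreserving_tcflow (gen D.a) D.continuous_alpha D.alpha_pos s

lemma map_θ : Measure.map D.θ D.ν = volume := by
  have hp : IsProbabilityMeasure (Measure.map D.θ D.ν) :=
    Measure.isProbabilityMeasure_map D.measurable_θ.aemeasurable
  refine circle_unique fun v => ?_
  obtain ⟨s, rfl⟩ := QuotientAddGroup.mk_surjective v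
  conv_rhs => rw [← (D.mp_ψ s).map_eq]
  rw [Measure.map_map (measurable_const_add _) D.measurable_θ,
    Measure.map_map D.measurable_θ (D.mp_ψ s).measurable]
  refine Measure.map_congr ?_
  filter_upwards [D.ae_mem'] with P hP
  simp only [Function.comp]
  rw [(D.ψ_mem hP s).2, add_comm]

lemma ψ_image (s : ℝ) (A : Set Nil) : D.ψ s '' A = D.ψ (-s) ⁻¹' A := by
  refine congrFun (Set.image_eq_preimage_of_inverse (f := D.ψ s) (g := D.ψ (-s)) ?_ ?_) A
  · intro P
    unfold ψ
    rw [tcflow_add _ D.continuous_alpha D.alpha_pos, neg_add_cancel,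
      tcflow_zero _ D.continuous_alpha D.alpha_pos]
  · intro P
    unfold ψ
    rw [tcflow_add _ D.continuous_alpha D.alpha_pos, add_neg_cancel,
      tcflow_zero _ D.continuous_alpha D.alpha_pos]

/-- the two sets -/
def I : Set UnitAddCircle := Metric.closedBall 0 (1 / 8)

/-- the two sets -/
noncomputable def J : Set UnitAddCircle := Metric.closedBall ((1 / 2 : ℝ) : UnitAddCircle) (1 / 8)

lemma measurableSet_I : MeasurableSet I := Metric.isClosed_closedBall.measurableSet
lemma measurableSet_J : MeasurableSet J := Metric.isClosed_closedBall.measurableSet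

lemma meas_I : D.ν.real (D.θ ⁻¹' I) = 1 / 4 := by
  unfold Measure.real
  rw [← Measure.map_apply D.measurable_θ measurableSet_I, map_θ]
  unfold I
  rw [AddCircle.volume_closedBall]
  norm_num

lemma meas_J : D.ν.real (D.θ ⁻¹' J) = 1 / 4 := by
  unfold Measure.real
  rw [← Measure.map_apply D.measurable_θ measurableSet_J, map_θ]
  unfold J
  rw [AddCircle.volume_closedBall]
  norm_num

/-- The measure of `ψ_s A ∩ B`. -/
lemma meas_inter (s : ℝ) : D.ν.real (D.ψ s '' (D.θ ⁻¹' I) ∩ D.θ ⁻¹' J) =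
    D.ν.real {P | D.θ P - ((s : ℝ) : UnitAddCircle) ∈ I ∧ D.θ P ∈ J} := by
  unfold Measure.real
  congr 1
  refine measure_congr ?_
  filter_upwards [D.ae_mem'] with P hP
  rw [D.ψ_image]
  have h := (D.ψ_mem hP (-s)).2
  apply propext
  show (D.ψ (-s) P ∈ D.θ ⁻¹' I ∧ P ∈ D.θ ⁻¹' J) ↔
    (D.θ P - ((s : ℝ) : UnitAddCircle) ∈ I ∧ D.θ P ∈ J)
  simp only [mem_preimage]
  rw [h, AddCircle.coe_neg, sub_eq_add_neg]

lemma norm_half : ‖((1 / 2 : ℝ) : UnitAddCircle)‖ = 1 / 2 := by
  rw [UnitAddCircle.norm_eq]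
  have : round (1 / 2 : ℝ) = 1 := by
    rw [round_eq]
    norm_num
  rw [this]
  norm_num

lemma norm_coe_le (n : ℤ) (s : ℝ) : ‖((s : ℝ) : UnitAddCircle)‖ ≤ |s - n| := by
  rw [UnitAddCircle.norm_eq]
  exact round_le s n

lemma meas_inter_zero (n : ℤ) {s : ℝ} (hs : |s - n| ≤ 1 / 8) :
    D.ν.real (D.ψ s '' (D.θ ⁻¹' I) ∩ D.θ ⁻¹' J) = 0 := by
  rw [meas_inter]
  have : {P | D.θ P - ((s : ℝ) : UnitAddCircle) ∈ I ∧ D.θ P ∈ J} = ∅ := by
    rw [eq_empty_iff_forall_notMem]
    rintro P ⟨h1, h2⟩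
    unfold I at h1
    unfold J at h2
    rw [Metric.mem_closedBall, dist_eq_norm] at h1 h2
    rw [sub_zero] at h1
    have h3 := (norm_coe_le n s).trans hs
    have h4 : ‖D.θ P‖ ≤ 1 / 4 := by
      calc ‖D.θ P‖ = ‖(D.θ P - ((s : ℝ) : UnitAddCircle)) + ((s : ℝ) : UnitAddCircle)‖ := by
            rw [sub_add_cancel]
        _ ≤ _ := norm_add_le _ _
        _ ≤ 1 / 4 := by linarith
    have h5 : ‖((1 / 2 : ℝ) : UnitAddCircle)‖ ≤ 3 / 8 := by
      calc ‖((1 / 2 : ℝ) : UnitAddCircle)‖ =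
            ‖D.θ P - (D.θ P - ((1 / 2 : ℝ) : UnitAddCircle))‖ := by rw [sub_sub_cancel]
        _ ≤ _ := norm_sub_le _ _
        _ ≤ 3 / 8 := by linarith
    rw [norm_half] at h5
    norm_num at h5
  rw [this]
  simp

theorem not_mixing : ¬ Mixing D.ψ D.ν := by
  intro h
  have h1 := h (D.θ ⁻¹' I) (D.θ ⁻¹' J) (D.measurable_θ measurableSet_I)
    (D.measurable_θ measurableSet_J)
  rw [D.meas_I, D.meas_J] at h1
  have h2 := h1.comp (tendsto_natCast_atTop_atTop (R := ℝ))
  have h3 : ((fun t : ℝ => D.ν.real (D.ψ t '' (D.θ ⁻¹' I) ∩ D.θ ⁻¹' J)) ∘ fun n : ℕ => (n : ℝ)) =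
      fun _ => 0 := by
    ext n
    simp only [Function.comp]
    exact D.meas_inter_zero n (by simp)
  rw [h3] at h2
  have := tendsto_nhds_unique h2 tendsto_const_nhds
  norm_num at this

lemma measurable_fn : Measurable
    (fun s : ℝ => |D.ν.real (D.ψ s '' (D.θ ⁻¹' I) ∩ D.θ ⁻¹' J) - 1 / 4 * (1 / 4)|) := by
  have h1 : Measurable (fun s : ℝ => D.ν {P | D.θ P - ((s : ℝ) : UnitAddCircle) ∈ I ∧ D.θ P ∈ J}) := by
    have hset : MeasurableSet {z : ℝ × Nil | D.θ z.2 - ((z.1 : ℝ) : UnitAddCircle) ∈ I ∧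
        D.θ z.2 ∈ J} := by
      have m1 : Measurable (fun z : ℝ × Nil => D.θ z.2 - ((z.1 : ℝ) : UnitAddCircle)) :=
        (D.measurable_θ.comp measurable_snd).sub
          (AddCircle.measurable_mk'.comp measurable_fst)
      exact (m1 measurableSet_I).inter ((D.measurable_θ.comp measurable_snd) measurableSet_J)
    exact measurable_measure_prodMk_left hset
  have h2 : Measurable (fun s : ℝ => D.ν.real (D.ψ s '' (D.θ ⁻¹' I) ∩ D.θ ⁻¹' J)) := by
    simp only [meas_inter]
    exact h1.ennreal_toReal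
  exact (h2.sub measurable_const).norm

lemma intervalIntegrable_fn (a b : ℝ) : IntervalIntegrable
    (fun s : ℝ => |D.ν.real (D.ψ s '' (D.θ ⁻¹' I) ∩ D.θ ⁻¹' J) - 1 / 4 * (1 / 4)|) volume a b := by
  refine (intervalIntegrable_const (c := (1 : ℝ))).mono_fun
    D.measurable_fn.aestronglyMeasurable (ae_of_all _ fun s => ?_)
  simp only [Real.norm_eq_abs, abs_abs, abs_one]
  have h1 : 0 ≤ D.ν.real (D.ψ s '' (D.θ ⁻¹' I) ∩ D.θ ⁻¹' J) := measureReal_nonneg
  have h2 : D.ν.real (D.ψ s '' (D.θ ⁻¹' I) ∩ D.θ ⁻¹' J) ≤ 1 := measureReal_le_one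
  rw [abs_le]
  constructor <;> linarith

theorem not_weaklyMixing : ¬ WeaklyMixing D.ψ D.ν := by
  intro h
  have h1 := h (D.θ ⁻¹' I) (D.θ ⁻¹' J) (D.measurable_θ measurableSet_I)
    (D.measurable_θ measurableSet_J)
  rw [D.meas_I, D.meas_J] at h1
  set F : ℝ → ℝ := fun s => |D.ν.real (D.ψ s '' (D.θ ⁻¹' I) ∩ D.θ ⁻¹' J) - 1 / 4 * (1 / 4)| with hF
  have hFi : ∀ a b, IntervalIntegrable F volume a b := D.intervalIntegrable_fn
  have hF0 : ∀ s, 0 ≤ F s := fun s => abs_nonneg _
  have h2 := h1.comp (tendsto_natCast_atTop_atTop (R := ℝ))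
  have h3 : ∀ n : ℕ, (n : ℝ) / 128 ≤ ∫ s in (0 : ℝ)..n, F s := by
    intro n
    induction n with
    | zero => simp
    | succ n ih =>
      rw [← intervalIntegral.integral_add_adjacent_intervals (b := (n : ℝ)) (hFi _ _) (hFi _ _)]
      have e1 : 1 / 128 ≤ ∫ s in (n : ℝ)..((n + 1 : ℕ) : ℝ), F s := by
        rw [← intervalIntegral.integral_add_adjacent_intervals (b := (n : ℝ) + 1 / 8) (hFi _ _)
          (hFi _ _)]
        have e2 : ∫ s in (n : ℝ)..((n : ℝ) + 1 / 8), F s = 1 / 128 := by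
          have : ∫ s in (n : ℝ)..((n : ℝ) + 1 / 8), F s =
              ∫ s in (n : ℝ)..((n : ℝ) + 1 / 8), (1 / 16 : ℝ) := by
            refine intervalIntegral.integral_congr fun s hs => ?_
            rw [uIcc_of_le (by linarith)] at hs
            simp only [hF]
            rw [D.meas_inter_zero n (s := s) (by
              push_cast
              rw [abs_le]
              constructor <;> linarith [hs.1, hs.2])]
            norm_num
          rw [this]
          simp
          norm_num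
        have e3 : 0 ≤ ∫ s in ((n : ℝ) + 1 / 8)..((n + 1 : ℕ) : ℝ), F s :=
          intervalIntegral.integral_nonneg (by push_cast; linarith) fun s _ => hF0 s
        rw [e2]
        linarith
      push_cast at e1 ⊢
      linarith
  have h4 : ∀ᶠ n : ℕ in atTop, (1 / 128 : ℝ) ≤
      ((fun t : ℝ => (1 / t) * ∫ s in (0 : ℝ)..t, F s) ∘ fun n : ℕ => (n : ℝ)) n := by
    filter_upwards [eventually_ge_atTop 1] with n hn
    simp only [Function.comp]
    have hn' : (0 : ℝ) < n := by exact_mod_cast hn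
    rw [one_div_mul_eq_div, le_div_iff₀ hn']
    have := h3 n
    linarith
  have h5 := ge_of_tendsto h2 h4
  norm_num at h5

end Data

end Pool.Agent.N256.HN
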