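import Pool.Agent.N256.HN.Top

/-!
# The Haar measure of the Heisenberg nilmanifold
-/

set_option autoImplicit false

open MeasureTheory Filter Topology Set
open scoped ENNReal ContDiff

namespace Pool.Agent.N256.HN

open Heis

/-- the unit cube -/
def cube : Set (ℝ × ℝ × ℝ) := Ioc (0 : ℝ) 1 ×ˢ Ioc (0 : ℝ) 1 ×ˢ Ioc (0 : ℝ) 1

/-- the parametrisation of the nilmanifold -/
def par (w : ℝ × ℝ × ℝ) : Nil := toNil (mk w.1 w.2.1 w.2.2)

lemma continuous_par : Continuous par :=
  continuous_toNil.comp (continuous_mk continuous_fst (continuous_fst.comp continuous_snd)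
    (continuous_snd.comp continuous_snd))

/-- the Haar measure -/
noncomputable def haarNil : Measure Nil := Measure.map par (volume.restrict cube)

lemma volume_cube : volume cube = 1 := by
  unfold cube
  rw [Measure.volume_eq_prod, Measure.prod_prod, Measure.volume_eq_prod, Measure.prod_prod]
  simp

instance : IsProbabilityMeasure haarNil := by
  refine ⟨?_⟩
  unfold haarNil
  rw [Measure.map_apply continuous_par.measurable MeasurableSet.univ]
  simp [volume_cube]

lemma cube_restrict : (volume.restrict cube : Measure (ℝ × ℝ × ℝ)) =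
    (volume.restrict (Ioc (0 : ℝ) 1)).prod ((volume.restrict (Ioc (0 : ℝ) 1)).prod
      (volume.restrict (Ioc (0 : ℝ) 1))) := by
  unfold cube
  rw [Measure.volume_eq_prod, ← Measure.prod_restrict, Measure.volume_eq_prod,
    ← Measure.prod_restrict]

lemma integral_haar {f : Nil → ℝ} (hf : Continuous f) : ∫ p, f p ∂haarNil =
    ∫ x in (0 : ℝ)..1, ∫ y in (0 : ℝ)..1, ∫ z in (0 : ℝ)..1, f (toNil (mk x y z)) := by
  obtain ⟨C, hC⟩ := isCompact_univ.exists_bound_of_continuousOn hf.continuousOn
  have hC' : ∀ p, ‖f p‖ ≤ C := fun p => hC p (mem_univ p)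
  have hfin : IsFiniteMeasure (volume.restrict cube : Measure (ℝ × ℝ × ℝ)) := by
    refine ⟨?_⟩
    simp [volume_cube]
  have hint : Integrable (fun w : ℝ × ℝ × ℝ => f (par w)) (volume.restrict cube) :=
    Integrable.of_bound (hf.comp continuous_par).aestronglyMeasurable C
      (ae_of_all _ fun w => hC' _)
  unfold haarNil
  rw [integral_map continuous_par.measurable.aemeasurable hf.aestronglyMeasurable]
  rw [cube_restrict] at hint ⊢
  rw [integral_prod _ hint, intervalIntegral.integral_of_le zero_le_one]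
  refine integral_congr_ae ?_
  refine ae_of_all _ fun x => ?_
  simp only
  rw [integral_prod, intervalIntegral.integral_of_le zero_le_one]
  · refine integral_congr_ae (ae_of_all _ fun y => ?_)
    simp only
    rw [intervalIntegral.integral_of_le zero_le_one]
    rfl
  · refine Integrable.of_bound (hf.comp (continuous_par.comp
      (Continuous.prodMk continuous_const continuous_id))).aestronglyMeasurable C
      (ae_of_all _ fun w => hC' _)

lemma periodic_z (f : Nil → ℝ) (x y : ℝ) : Function.Periodic (fun z => f (toNil (mk x y z))) 1 := by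
  intro z
  simp only
  congr 1
  rw [toNil_eq_iff]
  refine ⟨_, mk_mem_Gam 0 0 1, ?_⟩
  apply Heis.ext
  · simp
  · simp
  · simp; ring

lemma shift_z (f : Nil → ℝ) (x y t : ℝ) : ∫ z in (0 : ℝ)..1, f (toNil (mk x y (z + t))) =
    ∫ z in (0 : ℝ)..1, f (toNil (mk x y z)) := by
  rw [intervalIntegral.integral_comp_add_right (fun z => f (toNil (mk x y z)))]
  have := (periodic_z f x y).intervalIntegral_add_eq t 0
  rw [zero_add, add_comm 1 t, this, zero_add]

lemma periodic_y (f : Nil → ℝ) (x : ℝ) :
    Function.Periodic (fun y => ∫ z in (0 : ℝ)..1, f (toNil (mk x y z))) 1 := by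
  intro y
  simp only
  congr 1
  ext z
  congr 1
  rw [toNil_eq_iff]
  refine ⟨_, mk_mem_Gam 0 1 0, ?_⟩
  apply Heis.ext
  · simp
  · simp; ring
  · simp

lemma periodic_x (f : Nil → ℝ) :
    Function.Periodic (fun x => ∫ y in (0 : ℝ)..1, ∫ z in (0 : ℝ)..1, f (toNil (mk x y z))) 1 := by
  intro x
  simp only
  congr 1
  ext y
  rw [← shift_z f (x + 1) y y]
  congr 1
  ext z
  congr 1
  rw [toNil_eq_iff]
  refine ⟨_, mk_mem_Gam 1 0 0, ?_⟩
  apply Heis.ext
  · simp; ring
  · simp
  · simp

lemma integral_shift {f : Nil → ℝ} (hf : Continuous f) (g : Heis) :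
    ∫ p, f (p.mulR g) ∂haarNil = ∫ p, f p ∂haarNil := by
  rw [integral_haar hf, integral_haar (f := fun p : Nil => f (p.mulR g))
    (hf.comp (Continuous.mulR continuous_id continuous_const))]
  have h1 : ∀ x y : ℝ, ∫ z in (0 : ℝ)..1, f ((toNil (mk x y z)).mulR g) =
      ∫ z in (0 : ℝ)..1, f (toNil (mk (x + g.x) (y + g.y) z)) := by
    intro x y
    rw [← shift_z f (x + g.x) (y + g.y) (g.z + x * g.y)]
    congr 1
    ext z
    congr 1
    rw [toNil_mulR]
    congr 1
    apply Heis.ext
    · simp
    · simp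
    · simp; ring
  have h2 : ∀ x : ℝ, ∫ y in (0 : ℝ)..1, ∫ z in (0 : ℝ)..1, f (toNil (mk (x + g.x) (y + g.y) z)) =
      ∫ y in (0 : ℝ)..1, ∫ z in (0 : ℝ)..1, f (toNil (mk (x + g.x) y z)) := by
    intro x
    rw [intervalIntegral.integral_comp_add_right
      (fun y => ∫ z in (0 : ℝ)..1, f (toNil (mk (x + g.x) y z)))]
    have := (periodic_y f (x + g.x)).intervalIntegral_add_eq g.y 0
    rw [zero_add, add_comm 1 g.y, this, zero_add]
  simp only [h1, h2]
  rw [intervalIntegral.integral_comp_add_right
    (fun x => ∫ y in (0 : ℝ)..1, ∫ z in (0 : ℝ)..1, f (toNil (mk x y z)))]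
  have := (periodic_x f).intervalIntegral_add_eq g.x 0
  rw [zero_add, add_comm 1 g.x, this, zero_add]

/-- Two Borel probability measures on `Nil` with the same integrals of real continuous functions are
equal. -/
lemma ext_cont {μ ν : Measure Nil} [IsFiniteMeasure μ] [IsFiniteMeasure ν]
    (h : ∀ f : Nil → ℝ, Continuous f → ∫ p, f p ∂μ = ∫ p, f p ∂ν) : μ = ν :=
  ext_of_forall_integral_eq_of_IsFiniteMeasure fun f => h f f.continuous

lemma measurePreserving_haar (g : Heis) :
    MeasurePreserving (fun p : Nil => p.mulR g) haarNil haarNil := by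
  have hc : Continuous (fun p : Nil => p.mulR g) := Continuous.mulR continuous_id continuous_const
  refine ⟨hc.measurable, ?_⟩
  have : IsFiniteMeasure (Measure.map (fun p : Nil => p.mulR g) haarNil) :=
    Measure.isFiniteMeasure_map _ _
  refine ext_cont fun f hf => ?_
  rw [integral_map hc.measurable.aemeasurable hf.aestronglyMeasurable]
  exact integral_shift hf g

lemma isHaarNil_haarNil : IsHaarNil haarNil := ⟨inferInstance, measurePreserving_haar⟩

end Pool.Agent.N256.HN
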