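import Pool.Agent.N256.HN.Eig

/-!
# The time-change is not measurably trivial
-/

set_option autoImplicit false

open MeasureTheory Filter Topology Set
open scoped ENNReal

namespace Pool.Agent.N256.HN

open Heis

section

variable {a : ℝ} (ha : Irrational a)

include ha in
/-- ergodicity -/
lemma ergodic_set {A : Set Nil} (hA : MeasurableSet A)
    (h : ∀ t, nilflow (gen a) t ⁻¹' A =ᵐ[haarNil] A) : haarNil A = 0 ∨ haarNil Aᶜ = 0 := by
  by_cases h0 : haarNil A = 0
  · exact Or.inl h0
  right
  have hp : IsProbabilityMeasure (ProbabilityTheory.cond haarNil A) :=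
    ProbabilityTheory.cond_isProbabilityMeasure h0
  have hmp : ∀ t, MeasurePreserving (nilflow (gen a) t) (ProbabilityTheory.cond haarNil A)
      (ProbabilityTheory.cond haarNil A) := by
    intro t
    have hm : Measurable (nilflow (gen a) t) := measurable_mulR _
    refine ⟨hm, ?_⟩
    ext B hB
    rw [Measure.map_apply hm hB, ProbabilityTheory.cond_apply hA, ProbabilityTheory.cond_apply hA]
    congr 1
    have h1 : (A ∩ nilflow (gen a) t ⁻¹' B : Set Nil) =ᵐ[haarNil]
        (nilflow (gen a) t ⁻¹' (A ∩ B) : Set Nil) := by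
      rw [preimage_inter]
      exact (h t).symm.inter (ae_eq_refl _)
    rw [measure_congr h1]
    exact (measurePreserving_haar (expo (gen a) t)).measure_preimage (hA.inter hB).nullMeasurableSet
  have heq := eq_haar ha hmp
  rw [← heq, ProbabilityTheory.cond_apply hA]
  simp

include ha in
lemma ergodic_fun {u : Nil → ℝ} (hu : Measurable u)
    (h : ∀ t, ∀ᵐ P ∂haarNil, u (nilflow (gen a) t P) = u P) : ∃ c, ∀ᵐ P ∂haarNil, u P = c := by
  have := exists_eventuallyEq_const_of_forall_separating (l := ae haarNil) (f := u) MeasurableSet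
    (fun U hU => ?_)
  · exact this
  · have h1 := ergodic_set ha (hu hU) (fun t => ?_)
    · rcases h1 with h1 | h1
      · right
        rw [ae_iff]
        have e : {P | ¬ (u P ∉ U)} = u ⁻¹' U := by
          ext P
          simp
        rw [e]
        exact h1
      · left
        rw [ae_iff]
        exact h1
    · filter_upwards [h t] with P hP
      apply propext
      show u (nilflow (gen a) t P) ∈ U ↔ u P ∈ U
      rw [hP]

end

lemma unif_dir {f : Nil → ℝ} (hf : Continuous f) {e : ℝ → Heis} (he : Continuous e)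
    (he0 : e 0 = 1) {ε : ℝ} (hε : 0 < ε) : ∃ δ > 0, ∀ s : ℝ, |s| < δ → ∀ p,
    |f (p.mulR (e s)) - f p| ≤ ε := by
  let G0 : C(ℝ × Nil, ℝ) := ⟨fun q => f (q.2.mulR (e q.1)),
    hf.comp (Continuous.mulR continuous_snd (he.comp continuous_fst))⟩
  have h0 : ∀ p, G0.curry 0 p = f p := by
    intro p
    show f (p.mulR (e 0)) = f p
    rw [he0, mulR_one]
  have hG := G0.curry.continuous.continuousAt (x := 0)
  rw [Metric.continuousAt_iff] at hG
  obtain ⟨δ, hδ, H⟩ := hG ε hε
  refine ⟨δ, hδ, fun s hs p => ?_⟩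
  have h1 := H (x := s) (by simpa [Real.dist_eq] using hs)
  have h2 := ContinuousMap.dist_apply_le_dist (f := G0.curry s) (g := G0.curry 0) p
  rw [h0, Real.dist_eq] at h2
  exact h2.trans h1.le

/-- averages over a finite subgroup of the centre -/
noncomputable def avg (f : Nil → ℝ) (N : ℕ) (P : Nil) : ℝ :=
  (∑ i ∈ Finset.range N, f (P.mulR (zc (i / N)))) / N

lemma continuous_avg {f : Nil → ℝ} (hf : Continuous f) (N : ℕ) : Continuous (avg f N) := by
  unfold avg
  refine Continuous.div_const (continuous_finsetSum _ fun i _ => ?_) _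
  exact hf.comp (Continuous.mulR continuous_id continuous_const)

lemma avg_step (f : Nil → ℝ) {N : ℕ} (hN : 0 < N) (P : Nil) :
    avg f N (P.mulR (zc (1 / N))) = avg f N P := by
  unfold avg
  congr 1
  have hN' : (N : ℝ) ≠ 0 := by exact_mod_cast hN.ne'
  have e1 : ∀ i : ℕ, (P.mulR (zc (1 / N))).mulR (zc (i / N)) = P.mulR (zc ((i + 1 : ℕ) / N)) := by
    intro i
    rw [mulR_mulR, zc_add]
    congr 2
    push_cast
    field_simp
    ring
  simp only [e1]
  have h1 := Finset.sum_range_succ' (fun i : ℕ => f (P.mulR (zc ((i : ℕ) / N)))) N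
  have h2 := Finset.sum_range_succ (fun i : ℕ => f (P.mulR (zc ((i : ℕ) / N)))) N
  have h3 : P.mulR (zc ((N : ℕ) / N)) = P.mulR (zc ((0 : ℕ) / N)) := by
    rw [div_self hN', Nat.cast_zero, zero_div, zc_zero, mulR_one]
    have := mulR_zc_one P 1
    simpa using this
  rw [h3] at h2
  have h4 := h1.symm.trans h2
  exact add_right_cancel h4

lemma avg_steps (f : Nil → ℝ) {N : ℕ} (hN : 0 < N) (j : ℕ) (P : Nil) :
    avg f N (P.mulR (zc (j / N))) = avg f N P := by
  induction j generalizing P with
  | zero => simp [zc_zero, mulR_one]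
  | succ j ih =>
    have : P.mulR (zc ((j + 1 : ℕ) / N)) = (P.mulR (zc (j / N))).mulR (zc (1 / N)) := by
      rw [mulR_mulR, zc_add]
      congr 2
      push_cast
      ring
    rw [this, avg_step f hN, ih]

lemma mulR_zc_fract (P : Nil) (s : ℝ) : P.mulR (zc s) = P.mulR (zc (Int.fract s)) := by
  have h1 : zc s = zc (Int.fract s) * zc (⌊s⌋ : ℝ) := by
    rw [zc_add, Int.fract_add_floor]
  rw [h1, ← mulR_mulR, mulR_zc_one]

/-- averages over a fine finite subgroup of the centre are almost invariant under the centre -/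
lemma avg_center {f : Nil → ℝ} {N : ℕ} (hN : 0 < N) {η : ℝ}
    (hη : ∀ s : ℝ, |s| ≤ 1 / N → ∀ p, |f (p.mulR (zc s)) - f p| ≤ η) (s : ℝ) (P : Nil) :
    |avg f N (P.mulR (zc s)) - avg f N P| ≤ η := by
  have hN' : (0 : ℝ) < N := by exact_mod_cast hN
  rw [mulR_zc_fract]
  set s' := Int.fract s with hs'
  have hs0 : 0 ≤ s' := Int.fract_nonneg s
  set j := ⌊s' * N⌋₊ with hj
  have h1 : (j : ℝ) ≤ s' * N := Nat.floor_le (by positivity)
  have h2 : s' * N < j + 1 := Nat.lt_floor_add_one _
  set r := s' - j / N with hr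
  have hr0 : |r| ≤ 1 / N := by
    rw [abs_le]
    have e : r = (s' * N - j) / N := by rw [hr]; field_simp
    rw [e]
    constructor
    · have : 0 ≤ (s' * N - j) / N := div_nonneg (by linarith) hN'.le
      have : 0 < 1 / (N : ℝ) := by positivity
      linarith
    · rw [div_le_div_iff_of_pos_right hN']
      linarith
  have e1 : P.mulR (zc s') = (P.mulR (zc r)).mulR (zc (j / N)) := by
    rw [mulR_mulR, zc_add, hr, sub_add_cancel]
  rw [e1, avg_steps f hN]
  unfold avg
  rw [← sub_div, ← Finset.sum_sub_distrib, abs_div, abs_of_pos hN', div_le_iff₀ hN']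
  refine (Finset.abs_sum_le_sum_abs _ _).trans ?_
  calc ∑ i ∈ Finset.range N, |f ((P.mulR (zc r)).mulR (zc (i / N))) - f (P.mulR (zc (i / N)))|
      ≤ ∑ i ∈ Finset.range N, η := by
        refine Finset.sum_le_sum fun i _ => ?_
        have : (P.mulR (zc r)).mulR (zc (i / N)) = (P.mulR (zc (i / N))).mulR (zc r) := by
          rw [mulR_mulR, mulR_mulR, zc_comm]
        rw [this]
        exact hη r hr0 _
    _ = η * N := by simp; ring

lemma avg_y {f : Nil → ℝ} {N : ℕ} (hN : 0 < N) {η b : ℝ}
    (hη : ∀ p : Nil, |f (p.mulR (mk 0 b 0)) - f p| ≤ η) (P : Nil) :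
    |avg f N (P.mulR (mk 0 b 0)) - avg f N P| ≤ η := by
  have hN' : (0 : ℝ) < N := by exact_mod_cast hN
  unfold avg
  rw [← sub_div, ← Finset.sum_sub_distrib, abs_div, abs_of_pos hN', div_le_iff₀ hN']
  refine (Finset.abs_sum_le_sum_abs _ _).trans ?_
  calc ∑ i ∈ Finset.range N, |f ((P.mulR (mk 0 b 0)).mulR (zc (i / N))) - f (P.mulR (zc (i / N)))|
      ≤ ∑ i ∈ Finset.range N, η := by
        refine Finset.sum_le_sum fun i _ => ?_
        have : (P.mulR (mk 0 b 0)).mulR (zc (i / N)) = (P.mulR (zc (i / N))).mulR (mk 0 b 0) := by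
          rw [mulR_mulR, mulR_mulR, zc_comm]
        rw [this]
        exact hη _
    _ = η * N := by simp; ring

/-- return times of the flow -/
lemma flow_return (a : ℝ) (n m : ℤ) (P : Nil) : ∃ s, nilflow (gen a) n P =
    (P.mulR (mk 0 (n * a - m) 0)).mulR (zc s) := by
  refine exists_of_torus_eq ?_
  unfold nilflow
  rw [torus_mulR, torus_mulR, expo_gen]
  congr 1
  refine Prod.ext ?_ ?_
  · show ((0 : ℝ) : UnitAddCircle) = (((n : ℝ)) : UnitAddCircle)
    have h : (((n : ℝ)) : UnitAddCircle) = 0 := by simp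
    rw [h]
    rfl
  · simp

section

variable {v : Nil → ℝ} (hv : Measurable v) {C : ℝ} (hC : ∀ p, |v p| ≤ C)
  (hz : ∀ N : ℕ, 0 < N → ∀ i : ℕ, ∀ᵐ P ∂haarNil, v (P.mulR (zc (i / N))) = v P)

include hv hC hz in
/-- rigidity of centre invariant functions along the return times -/
lemma rigid (a : ℝ) {η : ℝ} (hη : 0 < η) : ∃ δ > 0, ∀ n m : ℤ, |n * a - m| < δ →
    ∫ P, |v (nilflow (gen a) n P) - v P| ∂haarNil ≤ 4 * η := by
  have hvi : Integrable v haarNil := Integrable.of_bound hv.aestronglyMeasurable C (ae_of_all _ hC)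
  obtain ⟨Ψ, hΨ1, hΨ2⟩ := hvi.exists_boundedContinuous_integral_sub_le hη
  simp only [Real.norm_eq_abs] at hΨ1
  have hΨc : Continuous (Ψ : Nil → ℝ) := Ψ.continuous
  obtain ⟨δz, hδz, Hz⟩ := unif_dir hΨc continuous_zc zc_zero hη
  obtain ⟨δy, hδy, Hy⟩ := unif_dir hΨc (e := fun s => mk 0 s 0)
    (continuous_mk continuous_const continuous_id continuous_const) rfl hη
  obtain ⟨N0, hN0⟩ := exists_nat_one_div_lt hδz
  set N := N0 + 1 with hN
  have hNpos : 0 < N := Nat.succ_pos _
  have hN' : (0 : ℝ) < N := by exact_mod_cast hNpos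
  have hNz : ∀ s : ℝ, |s| ≤ 1 / N → ∀ p, |Ψ (p.mulR (zc s)) - Ψ p| ≤ η := by
    intro s hs p
    refine Hz s (lt_of_le_of_lt hs ?_) p
    rw [hN]
    exact_mod_cast hN0
  set Φ := avg Ψ N with hΦ
  have hΦc : Continuous Φ := continuous_avg hΨc N
  have int_of : ∀ {F : Nil → ℝ}, Continuous F → Integrable F haarNil := by
    intro F hF
    obtain ⟨D, _, hD⟩ := exists_boundR hF
    exact Integrable.of_bound hF.aestronglyMeasurable D (ae_of_all _ hD)
  -- the distance of `v` and `Φ`
  have h1 : ∫ P, |v P - Φ P| ∂haarNil ≤ η := by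
    have e1 : ∀ᵐ P ∂haarNil, ∀ i : ℕ, v (P.mulR (zc (i / N))) = v P :=
      ae_all_iff.2 fun i => hz N hNpos i
    have i1 : ∀ i : ℕ, Integrable (fun P : Nil => |v (P.mulR (zc (i / N))) - Ψ (P.mulR (zc (i / N)))|)
        haarNil := by
      intro i
      exact ((measurePreserving_haar (zc (i / N))).integrable_comp_of_integrable
        (hvi.sub (int_of hΨc))).abs
    have e2 : ∀ᵐ P ∂haarNil, |v P - Φ P| ≤
        (∑ i ∈ Finset.range N, |v (P.mulR (zc (i / N))) - Ψ (P.mulR (zc (i / N)))|) / N := by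
      filter_upwards [e1] with P hP
      have : v P - Φ P = (∑ i ∈ Finset.range N,
          (v (P.mulR (zc (i / N))) - Ψ (P.mulR (zc (i / N))))) / N := by
        rw [hΦ]
        unfold avg
        rw [Finset.sum_sub_distrib]
        simp only [hP]
        simp
        field_simp
      rw [this, abs_div, abs_of_pos hN']
      gcongr
      exact Finset.abs_sum_le_sum_abs _ _
    calc ∫ P, |v P - Φ P| ∂haarNil ≤ ∫ P : Nil, (∑ i ∈ Finset.range N,
          |v (P.mulR (zc (i / N))) - Ψ (P.mulR (zc (i / N)))|) / N ∂haarNil := by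
          refine integral_mono_ae (hvi.sub (int_of hΦc)).abs ?_ e2
          exact (integrable_finsetSum _ fun i _ => i1 i).div_const _
      _ = (∑ i ∈ Finset.range N, ∫ P, |v P - Ψ P| ∂haarNil) / N := by
          rw [integral_div, integral_finsetSum _ fun i _ => i1 i]
          congr 1
          refine Finset.sum_congr rfl fun i _ => ?_
          have hm : Measurable (fun P => |v P - Ψ P|) :=
            (hv.sub hΨc.measurable).norm
          conv_rhs => rw [← (measurePreserving_haar (zc (i / N))).map_eq]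
          rw [integral_map (measurable_mulR _).aemeasurable hm.aestronglyMeasurable]
      _ ≤ η := by
          rw [div_le_iff₀ hN', Finset.sum_const, Finset.card_range, nsmul_eq_mul]
          rw [mul_comm]
          gcongr
  refine ⟨δy, hδy, fun n m hnm => ?_⟩
  have hm1 : MeasurePreserving (nilflow (gen a) n) haarNil haarNil :=
    measurePreserving_haar (expo (gen a) n)
  have h2 : ∀ P, |Φ (nilflow (gen a) n P) - Φ P| ≤ 2 * η := by
    intro P
    obtain ⟨s, hs⟩ := flow_return a n m P
    have e1 := avg_center hNpos hNz s (P.mulR (mk 0 (n * a - m) 0))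
    have e2 := avg_y (b := n * a - m) hNpos (Hy _ hnm) P
    rw [← hs] at e1
    calc |Φ (nilflow (gen a) n P) - Φ P| ≤
          |Φ (nilflow (gen a) n P) - Φ (P.mulR (mk 0 (n * a - m) 0))| +
          |Φ (P.mulR (mk 0 (n * a - m) 0)) - Φ P| := abs_sub_le _ _ _
      _ ≤ 2 * η := by linarith
  have i2 : Integrable (fun P => |v (nilflow (gen a) n P) - Φ (nilflow (gen a) n P)|) haarNil :=
    (hm1.integrable_comp_of_integrable (hvi.sub (int_of hΦc))).abs
  have i3 : Integrable (fun P => |v P - Φ P|) haarNil := (hvi.sub (int_of hΦc)).abs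
  have i4 : Integrable (fun P => |v (nilflow (gen a) n P) - v P|) haarNil :=
    ((hm1.integrable_comp_of_integrable hvi).sub hvi).abs
  calc ∫ P, |v (nilflow (gen a) n P) - v P| ∂haarNil ≤
        ∫ P, ((|v (nilflow (gen a) n P) - Φ (nilflow (gen a) n P)| + 2 * η) + |v P - Φ P|) ∂haarNil := by
        refine integral_mono i4 ((i2.add (integrable_const _)).add i3) fun P => ?_
        simp only
        have e := h2 P
        have e1 : v (nilflow (gen a) n P) - v P = (v (nilflow (gen a) n P) - Φ (nilflow (gen a) n P)) +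
          (Φ (nilflow (gen a) n P) - Φ P) - (v P - Φ P) := by ring
        rw [e1]
        have e3 := abs_sub ((v (nilflow (gen a) n P) - Φ (nilflow (gen a) n P)) +
          (Φ (nilflow (gen a) n P) - Φ P)) (v P - Φ P)
        have e4 := abs_add_le (v (nilflow (gen a) n P) - Φ (nilflow (gen a) n P))
          (Φ (nilflow (gen a) n P) - Φ P)
        linarith
    _ = (∫ P, |v (nilflow (gen a) n P) - Φ (nilflow (gen a) n P)| ∂haarNil) + 2 * η +
        ∫ P, |v P - Φ P| ∂haarNil := by
        have i5 : Integrable (fun P => |v (nilflow (gen a) n P) - Φ (nilflow (gen a) n P)| + 2 * η)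
          haarNil := i2.add (integrable_const _)
        rw [integral_add i5 i3, integral_add i2 (integrable_const _)]
        simp
    _ = (∫ P, |v P - Φ P| ∂haarNil) + 2 * η + ∫ P, |v P - Φ P| ∂haarNil := by
        congr 2
        have hm : Measurable (fun P => |v P - Φ P|) := (hv.sub hΦc.measurable).norm
        conv_rhs => rw [← hm1.map_eq]
        rw [integral_map hm1.measurable.aemeasurable hm.aestronglyMeasurable]
    _ ≤ 4 * η := by linarith

end

end Pool.Agent.N256.HN
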