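import Pool.Agent.N256.HN.Nontriv

/-!
# The time-change is not measurably trivial: conclusion
-/

set_option autoImplicit false

open MeasureTheory Filter Topology Set
open scoped ENNReal

namespace Pool.Agent.N256.HN

open Heis

lemma nilflow_zc' (X : ℝ × ℝ × ℝ) (t s : ℝ) (p : Nil) :
    nilflow X t (p.mulR (zc s)) = (nilflow X t p).mulR (zc s) := nilflow_zc X t s p

lemma ae_mulR {Q : Nil → Prop} (g : Heis) (h : ∀ᵐ P ∂haarNil, Q P) :
    ∀ᵐ P ∂haarNil, Q (P.mulR g) :=
  (measurePreserving_haar g).quasiMeasurePreserving.ae h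

namespace Data

variable (D : Data)

lemma alpha_zc (s : ℝ) (P : Nil) : D.α (P.mulR (zc s)) = D.α P := by
  unfold α
  simp only [wave_zc]

lemma tau_zc (s t : ℝ) (P : Nil) : tau (gen D.a) D.α (P.mulR (zc s)) t = tau (gen D.a) D.α P t := by
  unfold tau
  simp only [nilflow_zc, alpha_zc]

section

variable {c : ℝ} {w : Nil → ℝ} (hw : Measurable w)
  (h : ∀ t : ℝ, ∀ᵐ P ∂haarNil, w (nilflow (gen D.a) t P) - w P = tau (gen D.a) D.α P t - c * t)

include hw h in
/-- a transfer function is invariant under the finite subgroups of the centre -/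
lemma center_inv (N : ℕ) (hN : 0 < N) (i : ℕ) :
    ∀ᵐ P ∂haarNil, w (P.mulR (zc (i / N))) = w P := by
  have hN' : (N : ℝ) ≠ 0 := by exact_mod_cast hN.ne'
  have h1 : ∃ d, ∀ᵐ P ∂haarNil, w (P.mulR (zc (1 / N))) - w P = d := by
    refine ergodic_fun D.irr ((hw.comp (measurable_mulR _)).sub hw) fun t => ?_
    filter_upwards [h t, ae_mulR (zc (1 / N)) (h t)] with P h1 h2
    show w ((nilflow (gen D.a) t P).mulR (zc (1 / N))) - w (nilflow (gen D.a) t P) =
      w (P.mulR (zc (1 / N))) - w P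
    rw [tau_zc, nilflow_zc] at h2
    linarith
  obtain ⟨d, hd⟩ := h1
  have h2 : ∀ i : ℕ, ∀ᵐ P ∂haarNil, w (P.mulR (zc (i / N))) = w P + i * d := by
    intro i
    induction i with
    | zero =>
      refine ae_of_all _ fun P => ?_
      simp [zc_zero, mulR_one]
    | succ i ih =>
      filter_upwards [ih, ae_mulR (zc (i / N)) hd] with P e1 e2
      have : P.mulR (zc ((i + 1 : ℕ) / N)) = (P.mulR (zc (i / N))).mulR (zc (1 / N)) := by
        rw [mulR_mulR, zc_add]
        congr 2
        push_cast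
        ring
      rw [this]
      push_cast
      linarith
  have h3 : d = 0 := by
    obtain ⟨P, hP⟩ := (h2 N).exists
    rw [div_self hN'] at hP
    have e : P.mulR (zc 1) = P := by
      have := mulR_zc_one P 1
      simpa using this
    rw [e] at hP
    have : (N : ℝ) * d = 0 := by linarith
    rcases mul_eq_zero.1 this with h | h
    · exact absurd h hN'
    · exact h
  filter_upwards [h2 i] with P hP
  rw [hP, h3, mul_zero, add_zero]

include hw h in
lemma small_osc : ∃ δ > 0, ∀ n m : ℤ, |n * D.a - m| < δ →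
    haarNil.real {P | 1 / 2 < |w (nilflow (gen D.a) n P) - w P|} ≤ 3 / 16 := by
  -- truncation level
  have hlim : Tendsto (fun K : ℕ => haarNil.real {P | (K : ℝ) < |w P|}) atTop (𝓝 0) := by
    have hanti : Antitone (fun K : ℕ => {P | (K : ℝ) < |w P|}) := by
      intro K K' hK P hP
      simp only [mem_ofPred_eq] at hP ⊢
      exact lt_of_le_of_lt (by exact_mod_cast hK) hP
    have hm : ∀ K : ℕ, NullMeasurableSet {P | (K : ℝ) < |w P|} haarNil := fun K =>
      (measurableSet_lt measurable_const hw.norm).nullMeasurableSet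
    have h1 := tendsto_measure_iInter_atTop (μ := haarNil) hm hanti ⟨0, by simp⟩
    have h2 : (⋂ K : ℕ, {P | (K : ℝ) < |w P|}) = ∅ := by
      rw [eq_empty_iff_forall_notMem]
      intro P hP
      rw [mem_iInter] at hP
      obtain ⟨K, hK⟩ := exists_nat_gt |w P|
      exact absurd (hP K) (not_lt.2 hK.le)
    rw [h2, measure_empty] at h1
    have := (ENNReal.tendsto_toReal ENNReal.zero_ne_top).comp h1
    rw [ENNReal.toReal_zero] at this
    exact this
  have hev := hlim.eventually (gt_mem_nhds (show (0 : ℝ) < 1 / 32 by norm_num))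
  obtain ⟨K, hK⟩ := hev.exists
  set v : Nil → ℝ := fun P => max (-(K : ℝ)) (min K (w P)) with hv
  have hvm : Measurable v := measurable_const.max (measurable_const.min hw)
  have hK0 : (0 : ℝ) ≤ K := Nat.cast_nonneg K
  have hvC : ∀ P, |v P| ≤ K := by
    intro P
    rw [abs_le]
    constructor
    · exact le_max_left _ _
    · exact max_le (by linarith) (min_le_left _ _)
  have hveq : ∀ P, |w P| ≤ K → v P = w P := by
    intro P hP
    rw [abs_le] at hP
    simp only [hv]
    rw [min_eq_right hP.2, max_eq_right hP.1]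
  have hvz : ∀ N : ℕ, 0 < N → ∀ i : ℕ, ∀ᵐ P ∂haarNil, v (P.mulR (zc (i / N))) = v P := by
    intro N hN i
    filter_upwards [D.center_inv hw h N hN i] with P hP
    simp only [hv]
    rw [hP]
  obtain ⟨δ, hδ, H⟩ := rigid hvm hvC hvz D.a (η := 1 / 64) (by norm_num)
  refine ⟨δ, hδ, fun n m hnm => ?_⟩
  have h1 := H n m hnm
  have hm1 : MeasurePreserving (nilflow (gen D.a) n) haarNil haarNil :=
    measurePreserving_haar (expo (gen D.a) n)
  have hvi : Integrable v haarNil := Integrable.of_bound hvm.aestronglyMeasurable K (ae_of_all _ hvC)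
  have i4 : Integrable (fun P => |v (nilflow (gen D.a) n P) - v P|) haarNil :=
    ((hm1.integrable_comp_of_integrable hvi).sub hvi).abs
  have h2 := mul_meas_ge_le_integral_of_nonneg (μ := haarNil)
    (f := fun P => |v (nilflow (gen D.a) n P) - v P|)
    (ae_of_all _ fun P => abs_nonneg _) i4 (1 / 2)
  have h3 : haarNil.real {P | (1 / 2 : ℝ) ≤ |v (nilflow (gen D.a) n P) - v P|} ≤ 1 / 8 := by
    linarith
  have hsub : {P | 1 / 2 < |w (nilflow (gen D.a) n P) - w P|} ⊆
      {P | (1 / 2 : ℝ) ≤ |v (nilflow (gen D.a) n P) - v P|} ∪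
      ({P | (K : ℝ) < |w P|} ∪ nilflow (gen D.a) n ⁻¹' {P | (K : ℝ) < |w P|}) := by
    intro P hP
    simp only [mem_union, mem_ofPred_eq, mem_preimage] at hP ⊢
    by_contra hcon
    push Not at hcon
    obtain ⟨e1, e2, e3⟩ := hcon
    rw [hveq _ e2, hveq _ e3] at e1
    linarith
  have hK2 : haarNil.real (nilflow (gen D.a) n ⁻¹' {P | (K : ℝ) < |w P|}) =
      haarNil.real {P | (K : ℝ) < |w P|} := by
    have hKm : MeasurableSet {P | (K : ℝ) < |w P|} := measurableSet_lt measurable_const hw.norm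
    unfold Measure.real
    rw [hm1.measure_preimage hKm.nullMeasurableSet]
  calc haarNil.real {P | 1 / 2 < |w (nilflow (gen D.a) n P) - w P|}
      ≤ _ := measureReal_mono hsub
    _ ≤ haarNil.real {P | (1 / 2 : ℝ) ≤ |v (nilflow (gen D.a) n P) - v P|} +
        haarNil.real ({P | (K : ℝ) < |w P|} ∪ nilflow (gen D.a) n ⁻¹' {P | (K : ℝ) < |w P|}) :=
        measureReal_union_le _ _
    _ ≤ haarNil.real {P | (1 / 2 : ℝ) ≤ |v (nilflow (gen D.a) n P) - v P|} +
        (haarNil.real {P | (K : ℝ) < |w P|} +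
        haarNil.real (nilflow (gen D.a) n ⁻¹' {P | (K : ℝ) < |w P|})) := by
        gcongr
        exact measureReal_union_le _ _
    _ ≤ 3 / 16 := by
        rw [hK2]
        linarith

end

/-- At suitable return times of the base rotation the new time differs from the old one by `± 1` -/
lemma special_time (j : ℕ) : ∃ n m : ℤ, |n * D.a - m| ≤ 1 / D.q j ∧
    ∀ P, |tau (gen D.a) D.α P n - n - (1 - 2 * D.u j P)| ≤ 1 / 4 := by
  have hq : (0 : ℝ) < D.q j := by exact_mod_cast D.qpos j
  have hδ := D.δ_ne j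
  set r : ℤ := round (1 / (2 * D.q j * D.δ j)) with hr
  set n : ℤ := D.q j * r with hn
  have hδ0 : 0 < |D.δ j| := abs_pos.2 hδ
  have hL := D.Lpos j
  have hc4 : (D.q j : ℝ) * |D.δ j| ≤ 1 / 16 := by
    have h1 := D.c4 j
    have h2 : (D.q j : ℝ) * |D.δ j| * 1 ≤ D.q j * |D.δ j| * D.L j := by gcongr
    have h3 : (D.q j : ℝ) * |D.δ j| * D.L j ≤ 1 / 16 := h1
    linarith
  -- the shift at level `j`
  have e1 : |n * D.δ j - 1 / 2| ≤ D.q j * |D.δ j| := by
    have h1 := abs_sub_round (1 / (2 * D.q j * D.δ j))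
    have h2 : (n : ℝ) * D.δ j - 1 / 2 = -(D.q j * D.δ j) * (1 / (2 * D.q j * D.δ j) - r) := by
      rw [hn]
      push_cast
      field_simp
      ring
    rw [h2, abs_mul, abs_neg, abs_mul, abs_of_pos hq]
    have h3 : |1 / (2 * (D.q j : ℝ) * D.δ j) - r| ≤ 1 := by
      rw [hr]
      linarith
    calc (D.q j : ℝ) * |D.δ j| * |1 / (2 * (D.q j : ℝ) * D.δ j) - r|
        ≤ D.q j * |D.δ j| * 1 := by gcongr
      _ = _ := mul_one _
  have e2 : |(n : ℝ)| * |D.δ j| ≤ 1 := by
    rw [← abs_mul]
    have h1 : |(n : ℝ) * D.δ j| ≤ |n * D.δ j - 1 / 2| + |(1 / 2 : ℝ)| := by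
      have := abs_add_le (n * D.δ j - 1 / 2) (1 / 2 : ℝ)
      simpa using this
    rw [abs_of_pos (show (0 : ℝ) < 1 / 2 by norm_num)] at h1
    linarith
  have e3 : |(r : ℝ) * D.δ j| ≤ 1 / D.q j := by
    rw [le_div_iff₀ hq, abs_mul]
    have h1 : |(n : ℝ)| = D.q j * |(r : ℝ)| := by
      rw [hn]
      push_cast
      rw [abs_mul, abs_of_pos hq]
    rw [h1] at e2
    linarith
  refine ⟨n, D.p j * r, ?_, fun P => ?_⟩
  · have h1 : (n : ℝ) * D.a - ((D.p j * r : ℤ) : ℝ) = r * D.δ j := by
      rw [hn]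
      unfold δ
      push_cast
      ring
    rw [h1]
    exact e3
  obtain ⟨g, rfl⟩ := surjective_toNil P
  have hs := D.hasSum_tau g n
  set W : ℕ → ℝ := fun k => D.q k * g.y - D.p k * g.x with hW
  set f : ℕ → ℝ := fun k => D.G k (W k + n * D.δ k) - D.G k (W k) with hf
  -- the main term
  have m1 : |f j - (1 - 2 * D.u j (toNil g))| ≤ 1 / 16 := by
    have h1 : D.u j (toNil g) = D.G j (W j) := rfl
    have h2 : D.G j (W j + 1 / 2) = 1 - D.G j (W j) := D.half j (W j)
    have h3 : f j - (1 - 2 * D.u j (toNil g)) = D.G j (W j + n * D.δ j) - D.G j (W j + 1 / 2) := by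
      rw [h1, h2, hf]
      ring
    rw [h3]
    refine (D.lip_G j _ _).trans ?_
    have h4 : W j + n * D.δ j - (W j + 1 / 2) = n * D.δ j - 1 / 2 := by ring
    rw [h4]
    have h5 : (D.q j : ℝ) * |D.δ j| * D.L j ≤ 1 / 16 := D.c4 j
    calc D.L j * |n * D.δ j - 1 / 2| ≤ D.L j * (D.q j * |D.δ j|) := by gcongr
      _ ≤ 1 / 16 := by linarith
  -- the other terms
  have m2 : ∀ k, k ≠ j → |f k| ≤ (1 / 2) ^ (k + 4) := by
    intro k hk
    have hLk := D.Lpos k
    rcases lt_or_gt_of_ne hk with hlt | hgt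
    · -- `k < j`
      have h1 : (n : ℝ) * D.δ k = D.q k * (r * D.δ j) + ((r * (D.q k * D.p j - D.q j * D.p k) : ℤ) : ℝ) * 1 := by
        rw [hn]
        unfold δ
        push_cast
        ring
      have h2 : D.G k (W k + n * D.δ k) = D.G k (W k + D.q k * (r * D.δ j)) := by
        rw [h1, ← add_assoc]
        exact (D.per k).int_mul _ _
      simp only [hf]
      rw [h2]
      refine (D.lip_G k _ _).trans ?_
      rw [add_sub_cancel_left, abs_mul, Nat.abs_cast]
      have h3 := D.c2 k j hlt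
      calc D.L k * (D.q k * |(r : ℝ) * D.δ j|) ≤ D.L k * (D.q k * (1 / D.q j)) := by gcongr
        _ = D.L k * D.q k / D.q j := by ring
        _ ≤ (1 / 2) ^ (k + 4) := by
          rw [div_le_iff₀ hq, one_div, inv_pow, ← div_eq_inv_mul, le_div_iff₀ (by positivity)]
          exact h3
    · -- `k > j`
      simp only [hf]
      refine (D.lip_G k _ _).trans ?_
      rw [add_sub_cancel_left, abs_mul]
      have h3 : D.L k * |D.δ k| * 2 ^ (k + 4) ≤ |D.δ j| := D.c3 j k hgt
      rw [one_div, inv_pow, ← one_div, le_div_iff₀ (by positivity)]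
      calc D.L k * (|(n : ℝ)| * |D.δ k|) * 2 ^ (k + 4) = |(n : ℝ)| * (D.L k * |D.δ k| * 2 ^ (k + 4)) := by ring
        _ ≤ |(n : ℝ)| * |D.δ j| := by gcongr
        _ ≤ 1 := e2
  -- sum
  have hfs : HasSum f (tau (gen D.a) D.α (toNil g) n - n) := hs
  have hg : HasSum (fun k => if k = j then 0 else f k) (tau (gen D.a) D.α (toNil g) n - n - f j) := by
    have h1 : HasSum (fun k => if k = j then f j else 0) (f j) := hasSum_ite_eq j (f j)
    have e : (fun k => if k = j then 0 else f k) = fun k => f k - (if k = j then f j else 0) := by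
      funext k
      by_cases hk : k = j
      · simp [hk]
      · simp [hk]
    rw [e]
    exact hfs.sub h1
  have hgb : |tau (gen D.a) D.α (toNil g) n - n - f j| ≤ 1 / 8 := by
    rw [← hg.tsum_eq]
    refine tsum_of_norm_bounded (f := fun k => if k = j then 0 else f k)
      (g := fun k : ℕ => (1 / 2 : ℝ) ^ (k + 4)) ?_ fun k => ?_
    · rw [← tsum_half]
      exact summable_half.hasSum
    · rw [Real.norm_eq_abs]
      split_ifs with hk
      · rw [abs_zero]
        positivity
      · exact m2 k hk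
  have e5 : tau (gen D.a) D.α (toNil g) n - n - (1 - 2 * D.u j (toNil g)) =
      (tau (gen D.a) D.α (toNil g) n - n - f j) + (f j - (1 - 2 * D.u j (toNil g))) := by ring
  rw [e5]
  refine (abs_add_le _ _).trans ?_
  linarith

theorem not_trivial : ¬ MeasurablyTrivial (nilflow (gen D.a)) haarNil D.α := by
  rintro ⟨c, w, hw, H⟩
  have h : ∀ t : ℝ, ∀ᵐ P ∂haarNil, w (nilflow (gen D.a) t P) - w P =
      tau (gen D.a) D.α P t - c * t := by
    intro t
    filter_upwards [H t] with P hP
    rw [hP, intervalIntegral.integral_sub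
      ((continuous_alpha_flow (gen D.a) D.continuous_alpha P).intervalIntegrable _ _)
      intervalIntegrable_const]
    unfold tau
    simp
    ring
  obtain ⟨δ, hδ, Hδ⟩ := D.small_osc hw h
  obtain ⟨j, hj⟩ := exists_nat_gt (1 / δ)
  obtain ⟨n, m, hnm, Hn⟩ := D.special_time j
  have hj0 : (0 : ℝ) < j := lt_trans (by positivity) hj
  have hlt : |n * D.a - m| < δ := by
    refine lt_of_le_of_lt hnm ?_
    have h1 : (j : ℝ) ≤ D.q j := by exact_mod_cast D.qlarge j
    rw [div_lt_iff₀ (by linarith)]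
    rw [div_lt_iff₀ hδ] at hj
    calc 1 < (j : ℝ) * δ := hj
      _ ≤ D.q j * δ := by gcongr
      _ = δ * D.q j := mul_comm _ _
  have hosc := Hδ n m hlt
  -- both kinds of points exist
  have key : ∀ S : Set Nil, 3 / 8 ≤ haarNil.real S → ∃ P ∈ S,
      |w (nilflow (gen D.a) n P) - w P| ≤ 1 / 2 ∧
      w (nilflow (gen D.a) n P) - w P = tau (gen D.a) D.α P n - c * n := by
    intro S hS
    by_contra hcon
    push Not at hcon
    have hsub : S ⊆ {P | 1 / 2 < |w (nilflow (gen D.a) n P) - w P|} ∪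
        {P | ¬ (w (nilflow (gen D.a) n P) - w P = tau (gen D.a) D.α P n - c * n)} := by
      intro P hP
      by_cases hb : |w (nilflow (gen D.a) n P) - w P| ≤ 1 / 2
      · right
        exact hcon P hP hb
      · left
        exact not_le.1 hb
    have hz : haarNil.real {P | ¬ (w (nilflow (gen D.a) n P) - w P =
        tau (gen D.a) D.α P n - c * n)} = 0 := by
      unfold Measure.real
      have := ae_iff.1 (h n)
      rw [this]
      simp
    have := (measureReal_mono hsub).trans (measureReal_union_le (μ := haarNil) _ _)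
    linarith
  obtain ⟨P, hP, b1, b2⟩ := key _ (D.measure_01 j).1
  obtain ⟨P', hP', b1', b2'⟩ := key _ (D.measure_01 j).2
  have c1 := Hn P
  have c2 := Hn P'
  have hP0 : D.u j P = 0 := hP
  have hP1 : D.u j P' = 1 := hP'
  rw [hP0] at c1
  rw [hP1] at c2
  rw [b2] at b1
  rw [b2'] at b1'
  rw [abs_le] at b1 b1' c1 c2
  linarith [b1.1, b1.2, b1'.1, b1'.2, c1.1, c1.2, c2.1, c2.2]

end Data

end Pool.Agent.N256.HN
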