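import Pool.Agent.N256.HN.Defs

/-!
# Topology of the Heisenberg nilmanifold
-/

set_option autoImplicit false

open MeasureTheory Filter Topology Set
open scoped ENNReal ContDiff

namespace Pool.Agent.N256.HN

open Heis

lemma toNil_mulR (h g : Heis) : (toNil h).mulR g = toNil (h * g) := rfl

lemma surjective_toNil : Function.Surjective toNil := Quotient.mk_surjective

lemma Nil.ind {P : Nil → Prop} (h : ∀ g, P (toNil g)) (p : Nil) : P p := by
  obtain ⟨g, rfl⟩ := surjective_toNil p
  exact h g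

lemma mulR_mulR (p : Nil) (g h : Heis) : (p.mulR g).mulR h = p.mulR (g * h) := by
  obtain ⟨k, rfl⟩ := surjective_toNil p
  simp only [toNil_mulR, mul_assoc]

lemma mulR_one (p : Nil) : p.mulR 1 = p := by
  obtain ⟨k, rfl⟩ := surjective_toNil p
  simp only [toNil_mulR, mul_one]

lemma toNil_mul_of_mem {γ : Heis} (hγ : γ ∈ Gam) (g : Heis) : toNil (γ * g) = toNil g := by
  refine Quotient.sound ⟨⟨γ, hγ⟩, rfl⟩

lemma toNil_eq_iff {g h : Heis} : toNil g = toNil h ↔ ∃ γ ∈ Gam, γ * h = g := by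
  constructor
  · intro H
    obtain ⟨γ, hγ⟩ := Quotient.exact H
    exact ⟨γ, γ.2, hγ⟩
  · rintro ⟨γ, hγ, rfl⟩
    exact toNil_mul_of_mem hγ h

lemma mk_mem_Gam (p q r : ℤ) : Heis.mk p q r ∈ Gam := ⟨⟨p, rfl⟩, ⟨q, rfl⟩, ⟨r, rfl⟩⟩

lemma isClosed_ints {X : Type*} [TopologicalSpace X] {f : X → ℝ} (hf : Continuous f) :
    IsClosed {x | ∃ p : ℤ, f x = p} := by
  have : {x | ∃ p : ℤ, f x = p} = f ⁻¹' (range ((↑) : ℤ → ℝ)) := by
    ext x
    simp [eq_comm]
  rw [this]
  exact Int.isClosedEmbedding_coe_real.isClosed_range.preimage hf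

instance isClosed_Gam : IsClosed (Gam : Set Heis) := by
  have : (Gam : Set Heis) = {g : Heis | ∃ p : ℤ, g.x = p} ∩ ({g : Heis | ∃ p : ℤ, g.y = p} ∩
      {g : Heis | ∃ p : ℤ, g.z = p}) := rfl
  rw [this]
  exact (isClosed_ints continuous_x).inter ((isClosed_ints continuous_y).inter
    (isClosed_ints continuous_z))

instance : T2Space Nil := inferInstanceAs (T2Space (Quotient (MulAction.orbitRel Gam Heis)))

instance : SecondCountableTopology Nil :=
  ContinuousConstSMul.secondCountableTopology (Γ := Gam) (T := Heis)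

lemma isOpenQuotientMap_toNil : IsOpenQuotientMap toNil :=
  MulAction.isOpenQuotientMap_quotientMk (Γ := Gam) (T := Heis)

lemma continuous_toNil : Continuous toNil := isOpenQuotientMap_toNil.continuous

lemma isCompact_box (a a' b b' c c' : ℝ) :
    IsCompact {g : Heis | g.x ∈ Icc a a' ∧ g.y ∈ Icc b b' ∧ g.z ∈ Icc c c'} := by
  have : IsCompact (Icc a a' ×ˢ (Icc b b' ×ˢ Icc c c') : Set (ℝ × ℝ × ℝ)) :=
    isCompact_Icc.prod (isCompact_Icc.prod isCompact_Icc)
  exact this

lemma exists_reduce (g : Heis) : ∃ γ ∈ Gam, (γ * g).x ∈ Ico (0 : ℝ) 1 ∧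
    (γ * g).y ∈ Ico (0 : ℝ) 1 ∧ (γ * g).z ∈ Ico (0 : ℝ) 1 := by
  set p : ℤ := -⌊g.x⌋
  set q : ℤ := -⌊g.y⌋
  set r : ℤ := -⌊g.z + p * g.y⌋
  refine ⟨Heis.mk p q r, mk_mem_Gam p q r, ?_, ?_, ?_⟩
  · have h1 := Int.floor_le g.x
    have h2 := Int.lt_floor_add_one g.x
    simp only [mul_x, x_mk, p, mem_Ico]
    push_cast
    constructor <;> linarith
  · have h1 := Int.floor_le g.y
    have h2 := Int.lt_floor_add_one g.y
    simp only [mul_y, y_mk, q, mem_Ico]
    push_cast
    constructor <;> linarith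
  · have h1 := Int.floor_le (g.z + p * g.y)
    have h2 := Int.lt_floor_add_one (g.z + p * g.y)
    simp only [mul_z, z_mk, x_mk, r, mem_Ico]
    push_cast
    constructor <;> linarith

instance : CompactSpace Nil := by
  have hc := (isCompact_box 0 1 0 1 0 1).image continuous_toNil
  refine ⟨?_⟩
  convert hc
  symm
  rw [eq_univ_iff_forall]
  intro p
  obtain ⟨g, rfl⟩ := surjective_toNil p
  obtain ⟨γ, hγ, h1, h2, h3⟩ := exists_reduce g
  exact ⟨γ * g, ⟨Ico_subset_Icc_self h1, Ico_subset_Icc_self h2, Ico_subset_Icc_self h3⟩,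
    toNil_mul_of_mem hγ g⟩

instance : TopologicalSpace.MetrizableSpace Nil := inferInstance

lemma continuous_mulR : Continuous (fun q : Nil × Heis => q.1.mulR q.2) := by
  have h1 : IsOpenQuotientMap (Prod.map toNil (id : Heis → Heis)) :=
    isOpenQuotientMap_toNil.prodMap IsOpenQuotientMap.id
  rw [← h1.isQuotientMap.continuous_iff.symm.eq]
  have : (fun q : Nil × Heis => q.1.mulR q.2) ∘ Prod.map toNil (id : Heis → Heis) =
      fun q : Heis × Heis => toNil (q.1 * q.2) := by
    ext q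
    rfl
  rw [this]
  exact continuous_toNil.comp continuous_mul

lemma Continuous.mulR {X : Type*} [TopologicalSpace X] {f : X → Nil} {g : X → Heis}
    (hf : Continuous f) (hg : Continuous g) : Continuous (fun x => (f x).mulR (g x)) :=
  continuous_mulR.comp (hf.prodMk hg)

lemma expo_add (X : ℝ × ℝ × ℝ) (s t : ℝ) : expo X s * expo X t = expo X (s + t) := by
  apply Heis.ext
  · simp [expo]; ring
  · simp [expo]; ring
  · simp [expo]; ring

lemma expo_zero (X : ℝ × ℝ × ℝ) : expo X 0 = 1 := by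
  apply Heis.ext <;> simp [expo]

lemma continuous_expo (X : ℝ × ℝ × ℝ) : Continuous (expo X) := by
  unfold expo
  exact continuous_mk (by fun_prop) (by fun_prop) (by fun_prop)

lemma continuous_nilflow (X : ℝ × ℝ × ℝ) : Continuous (fun q : ℝ × Nil => nilflow X q.1 q.2) :=
  Continuous.mulR continuous_snd ((continuous_expo X).comp continuous_fst)

lemma nilflow_add (X : ℝ × ℝ × ℝ) (s t : ℝ) (p : Nil) :
    nilflow X s (nilflow X t p) = nilflow X (s + t) p := by
  unfold nilflow
  rw [mulR_mulR, expo_add, add_comm]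

lemma nilflow_zero (X : ℝ × ℝ × ℝ) (p : Nil) : nilflow X 0 p = p := by
  unfold nilflow
  rw [expo_zero, mulR_one]

/-- central elements -/
def zc (s : ℝ) : Heis := mk 0 0 s

lemma zc_comm (s : ℝ) (g : Heis) : zc s * g = g * zc s := by
  apply Heis.ext
  · simp [zc]
  · simp [zc]
  · simp [zc]; ring

lemma zc_add (s t : ℝ) : zc s * zc t = zc (s + t) := by
  apply Heis.ext <;> simp [zc]

lemma zc_zero : zc 0 = 1 := by
  apply Heis.ext <;> simp [zc]

lemma continuous_zc : Continuous zc := continuous_mk continuous_const continuous_const continuous_id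

lemma mulR_zc_one (p : Nil) (n : ℤ) : p.mulR (zc n) = p := by
  obtain ⟨g, rfl⟩ := surjective_toNil p
  rw [toNil_mulR, ← zc_comm]
  apply toNil_mul_of_mem
  have := mk_mem_Gam 0 0 n
  simpa [zc] using this

end Pool.Agent.N256.HN
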