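import Pool.Agent.N256.HN.Haar

/-!
# The projection of the Heisenberg nilmanifold to the torus
-/

set_option autoImplicit false

open MeasureTheory Filter Topology Set
open scoped ENNReal ContDiff

namespace Pool.Agent.N256.HN

open Heis

/-- the two dimensional torus -/
abbrev T2 := UnitAddCircle × UnitAddCircle

/-- the projection -/
def torus (p : Nil) : T2 :=
  Quotient.lift (s := MulAction.orbitRel Gam Heis)
    (fun g : Heis => (((g.x : ℝ) : UnitAddCircle), ((g.y : ℝ) : UnitAddCircle))) (by
    rintro a b ⟨γ, rfl⟩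
    obtain ⟨⟨m, hm⟩, ⟨n, hn⟩, _⟩ := γ.2
    refine Prod.ext ?_ ?_
    · show (((γ : Heis).x + b.x : ℝ) : UnitAddCircle) = ((b.x : ℝ) : UnitAddCircle)
      rw [hm, AddCircle.coe_add]
      simp
    · show (((γ : Heis).y + b.y : ℝ) : UnitAddCircle) = ((b.y : ℝ) : UnitAddCircle)
      rw [hn, AddCircle.coe_add]
      simp) p

lemma torus_toNil (g : Heis) : torus (toNil g) = ((g.x : UnitAddCircle), (g.y : UnitAddCircle)) := rfl

lemma continuous_torus : Continuous torus := by
  rw [isOpenQuotientMap_toNil.isQuotientMap.continuous_iff]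
  exact ((AddCircle.continuous_mk' 1).comp continuous_x).prodMk
    ((AddCircle.continuous_mk' 1).comp continuous_y)

lemma torus_mulR (p : Nil) (g : Heis) :
    torus (p.mulR g) = torus p + ((g.x : UnitAddCircle), (g.y : UnitAddCircle)) := by
  obtain ⟨h, rfl⟩ := surjective_toNil p
  rfl

lemma surjective_torus : Function.Surjective torus := by
  rintro ⟨u, v⟩
  obtain ⟨a, rfl⟩ := QuotientAddGroup.mk_surjective u
  obtain ⟨b, rfl⟩ := QuotientAddGroup.mk_surjective v
  exact ⟨toNil (mk a b 0), rfl⟩

lemma exists_of_torus_eq {p q : Nil} (h : torus p = torus q) : ∃ s, q = p.mulR (zc s) := by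
  obtain ⟨g, rfl⟩ := surjective_toNil p
  obtain ⟨k, rfl⟩ := surjective_toNil q
  rw [torus_toNil, torus_toNil, Prod.mk.injEq] at h
  obtain ⟨h1, h2⟩ := h
  have key : ∀ a b : ℝ, (a : UnitAddCircle) = (b : UnitAddCircle) → ∃ m : ℤ, b = m + a := by
    intro a b hab
    have : ((b - a : ℝ) : UnitAddCircle) = 0 := by
      rw [AddCircle.coe_sub, hab, sub_self]
    rw [AddCircle.coe_eq_zero_iff] at this
    obtain ⟨m, hm⟩ := this
    refine ⟨m, ?_⟩
    simp at hm
    linarith
  obtain ⟨m, hm⟩ := key _ _ h1
  obtain ⟨n, hn⟩ := key _ _ h2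
  refine ⟨k.z - (g.z + m * g.y), ?_⟩
  rw [toNil_mulR, toNil_eq_iff]
  refine ⟨_, mk_mem_Gam m n 0, ?_⟩
  apply Heis.ext
  · simp [zc, hm]
  · simp [zc, hn]
  · simp [zc]
    ring

lemma isQuotientMap_torus : IsQuotientMap torus :=
  continuous_torus.isClosedMap.isQuotientMap continuous_torus surjective_torus

/-- translation invariant probability measures on the torus are equal -/
lemma eq_of_invariant {ρ σ : Measure T2} [IsProbabilityMeasure ρ] [IsProbabilityMeasure σ]
    (hρ : ∀ v : T2, Measure.map (fun w => v + w) ρ = ρ)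
    (hσ : ∀ v : T2, Measure.map (fun w => v + w) σ = σ) : ρ = σ := by
  have h1 : ρ.IsAddLeftInvariant := ⟨hρ⟩
  have h2 : σ.IsAddLeftInvariant := ⟨hσ⟩
  have h3 : ρ.IsAddHaarMeasure := Measure.isAddHaarMeasure_of_isCompact_nonempty_interior ρ univ
    isCompact_univ (by simp) (by simp) (by simp)
  have h4 : σ.IsAddHaarMeasure := Measure.isAddHaarMeasure_of_isCompact_nonempty_interior σ univ
    isCompact_univ (by simp) (by simp) (by simp)
  exact Measure.isAddHaarMeasure_eq_of_isProbabilityMeasure ρ σ

/-- the set of translations which preserve a measure -/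
def stab (ρ : Measure T2) [IsFiniteMeasure ρ] : AddSubgroup T2 where
  carrier := {v | Measure.map (fun w => v + w) ρ = ρ}
  add_mem' := by
    intro v w hv hw
    simp only [mem_ofPred_eq] at hv hw ⊢
    have : (fun u : T2 => v + w + u) = (fun u => v + u) ∘ (fun u => w + u) := by
      ext u <;> simp [add_assoc]
    rw [this, ← Measure.map_map (measurable_const_add v) (measurable_const_add w), hw, hv]
  zero_mem' := by
    simp
  neg_mem' := by
    intro v hv
    simp only [mem_ofPred_eq] at hv ⊢
    conv_lhs => rw [← hv]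
    rw [Measure.map_map (measurable_const_add (-v)) (measurable_const_add v)]
    have : (fun w : T2 => -v + w) ∘ (fun w => v + w) = id := by
      ext w <;> simp
    rw [this, Measure.map_id]

lemma mem_stab {ρ : Measure T2} [IsFiniteMeasure ρ] {v : T2} :
    v ∈ stab ρ ↔ Measure.map (fun w => v + w) ρ = ρ := Iff.rfl

lemma mem_stab' {ρ : Measure T2} [IsFiniteMeasure ρ] {v : T2} :
    v ∈ stab ρ ↔ ∀ f : C(T2, ℝ), ∫ w, f (v + w) ∂ρ = ∫ w, f w ∂ρ := by
  rw [mem_stab]
  constructor
  · intro h f
    conv_rhs => rw [← h]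
    rw [integral_map (measurable_const_add v).aemeasurable f.continuous.aestronglyMeasurable]
  · intro h
    have : IsFiniteMeasure (Measure.map (fun w => v + w) ρ) := Measure.isFiniteMeasure_map _ _
    refine ext_of_forall_integral_eq_of_IsFiniteMeasure fun f => ?_
    rw [integral_map (measurable_const_add v).aemeasurable f.continuous.aestronglyMeasurable]
    exact h f

lemma isClosed_stab (ρ : Measure T2) [IsFiniteMeasure ρ] : IsClosed (stab ρ : Set T2) := by
  have : (stab ρ : Set T2) = ⋂ f : C(T2, ℝ), {v | ∫ w, f (v + w) ∂ρ = ∫ w, f w ∂ρ} := by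
    ext v
    simp only [SetLike.mem_coe, mem_stab', mem_iInter, mem_ofPred_eq]
  rw [this]
  refine isClosed_iInter fun f => isClosed_eq ?_ continuous_const
  refine continuous_of_dominated (bound := fun _ => ‖f‖) ?_ ?_ ?_ ?_
  · intro v
    exact (f.continuous.comp (continuous_const.add continuous_id)).aestronglyMeasurable
  · intro v
    exact ae_of_all _ fun w => f.norm_coe_le_norm _
  · exact integrable_const _
  · exact ae_of_all _ fun w => f.continuous.comp (continuous_id.add continuous_const)

/-- A probability measure on the torus which is invariant under the linear flow with irrational slope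
is invariant under all translations. -/
lemma invariant_of_flow {ρ : Measure T2} [IsProbabilityMeasure ρ] {a : ℝ} (ha : Irrational a)
    (h : ∀ t : ℝ, Measure.map (fun w => ((t : UnitAddCircle), ((t * a : ℝ) : UnitAddCircle)) + w) ρ = ρ)
    (v : T2) : Measure.map (fun w => v + w) ρ = ρ := by
  have h1 : ∀ t : ℝ, (((t : ℝ) : UnitAddCircle), ((t * a : ℝ) : UnitAddCircle)) ∈ stab ρ := h
  have hd : DenseRange (· • (a : UnitAddCircle) : ℤ → UnitAddCircle) := by
    have := (AddCircle.denseRange_zsmul_coe_iff (a := a) (p := 1)).2 (by simpa using ha)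
    exact this
  have h2 : ∀ s : UnitAddCircle, ((0 : UnitAddCircle), s) ∈ stab ρ := by
    intro s
    have hc : IsClosed {s : UnitAddCircle | ((0 : UnitAddCircle), s) ∈ stab ρ} :=
      (isClosed_stab ρ).preimage (continuous_const.prodMk continuous_id)
    have hsub : range (· • (a : UnitAddCircle) : ℤ → UnitAddCircle) ⊆
        {s : UnitAddCircle | ((0 : UnitAddCircle), s) ∈ stab ρ} := by
      rintro _ ⟨n, rfl⟩
      have := h1 n
      have e1 : (((n : ℝ) : UnitAddCircle)) = 0 := by simp
      have e2 : (((n : ℝ) * a : ℝ) : UnitAddCircle) = n • (a : UnitAddCircle) := by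
        rw [← zsmul_eq_mul]
        rfl
      rw [e1, e2] at this
      exact this
    have := closure_minimal hsub hc
    rw [hd.closure_range] at this
    exact this (mem_univ s)
  obtain ⟨u, v⟩ := v
  obtain ⟨t, rfl⟩ := QuotientAddGroup.mk_surjective u
  have h3 := (stab ρ).add_mem (h1 t) (h2 (v - ((t * a : ℝ) : UnitAddCircle)))
  rw [Prod.mk_add_mk, add_zero, add_sub_cancel] at h3
  exact h3

end Pool.Agent.N256.HN
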