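import Pool.Agent.N256.HN.Torus

/-!
# Unique ergodicity of irrational Heisenberg nilflows
-/

set_option autoImplicit false

open MeasureTheory Filter Topology Set
open scoped ENNReal ContDiff

namespace Pool.Agent.N256.HN

open Heis

/-- the generator of the flow -/
def gen (a : ℝ) : ℝ × ℝ × ℝ := (1, a, 0)

lemma expo_gen (a t : ℝ) : expo (gen a) t = mk t (t * a) (t ^ 2 * a / 2) := by
  apply Heis.ext <;> simp [expo, gen]

lemma measurable_mulR (g : Heis) : Measurable (fun p : Nil => p.mulR g) :=
  (Continuous.mulR continuous_id continuous_const).measurable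

section

variable {a : ℝ} (ha : Irrational a) {ν : Measure Nil} [IsProbabilityMeasure ν]
  (hν : ∀ t, MeasurePreserving (nilflow (gen a) t) ν ν)

include ha hν in
lemma map_torus_eq : Measure.map torus ν = Measure.map torus haarNil := by
  have hp1 : IsProbabilityMeasure (Measure.map torus ν) :=
    Measure.isProbabilityMeasure_map continuous_torus.measurable.aemeasurable
  have hp2 : IsProbabilityMeasure (Measure.map torus haarNil) :=
    Measure.isProbabilityMeasure_map continuous_torus.measurable.aemeasurable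
  refine eq_of_invariant (fun v => invariant_of_flow ha (fun t => ?_) v) (fun v => ?_)
  · conv_rhs => rw [← (hν t).map_eq]
    rw [Measure.map_map (measurable_const_add _) continuous_torus.measurable,
      Measure.map_map continuous_torus.measurable (hν t).measurable]
    congr 1
    ext p : 1
    show _ + torus p = torus (p.mulR (expo (gen a) t))
    rw [torus_mulR, expo_gen, add_comm]
    rfl
  · obtain ⟨u, v⟩ := v
    obtain ⟨s, rfl⟩ := QuotientAddGroup.mk_surjective u
    obtain ⟨t, rfl⟩ := QuotientAddGroup.mk_surjective v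
    conv_rhs => rw [← (measurePreserving_haar (mk s t 0)).map_eq]
    rw [Measure.map_map (measurable_const_add _) continuous_torus.measurable,
      Measure.map_map continuous_torus.measurable (measurable_mulR _)]
    congr 1
    ext p : 1
    show _ + torus p = torus (p.mulR _)
    rw [torus_mulR, add_comm]
    rfl

include ha hν in
/-- Integrals of centre invariant functions -/
lemma integral_central {F : Nil → ℂ} (hF : Continuous F)
    (hc : ∀ p s, F (p.mulR (zc s)) = F p) : ∫ p, F p ∂ν = ∫ p, F p ∂haarNil := by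
  obtain ⟨σ, hσ⟩ := surjective_torus.hasRightInverse
  have h1 : ∀ p, F (σ (torus p)) = F p := by
    intro p
    obtain ⟨s, hs⟩ := exists_of_torus_eq (p := p) (q := σ (torus p)) (hσ (torus p)).symm
    rw [hs, hc]
  have h2 : Continuous (fun w => F (σ w)) := by
    rw [isQuotientMap_torus.continuous_iff]
    convert hF using 1
    ext p
    exact h1 p
  have h3 : ∀ ρ : Measure Nil, ∫ p, F p ∂ρ = ∫ w, F (σ w) ∂(Measure.map torus ρ) := by
    intro ρ
    rw [integral_map continuous_torus.measurable.aemeasurable h2.aestronglyMeasurable]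
    simp only [h1]
  rw [h3, h3, map_torus_eq ha hν]

end

/-- the exponential `e (t) = exp (2 π i t)` -/
noncomputable def ee (t : ℝ) : ℂ := Complex.exp (2 * Real.pi * t * Complex.I)

lemma ee_add (s t : ℝ) : ee (s + t) = ee s * ee t := by
  unfold ee
  rw [← Complex.exp_add]
  congr 1
  push_cast
  ring

lemma norm_ee (t : ℝ) : ‖ee t‖ = 1 := by
  have : ee t = Complex.exp ((2 * Real.pi * t : ℝ) * Complex.I) := by
    unfold ee
    push_cast
    rfl
  rw [this, Complex.norm_exp_ofReal_mul_I]

lemma ee_zero : ee 0 = 1 := by simp [ee]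

lemma ee_int (n : ℤ) : ee n = 1 := by
  unfold ee
  rw [Complex.exp_eq_one_iff]
  exact ⟨n, by push_cast; ring⟩

lemma continuous_ee : Continuous ee := by
  unfold ee
  fun_prop

lemma ee_neg_half : ee (-(1 / 2)) = -1 := by
  unfold ee
  have : (2 * Real.pi * ((-(1 / 2) : ℝ) : ℂ) * Complex.I) = -(Real.pi * Complex.I) := by
    push_cast
    ring
  rw [this, Complex.exp_neg, Complex.exp_pi_mul_I]
  norm_num

lemma ee_neg_mul_self (t : ℝ) : ee (-t) * ee t = 1 := by
  rw [← ee_add]; simp [ee_zero]

lemma star_ee (t : ℝ) : (starRingEnd ℂ) (ee t) = ee (-t) := by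
  have h1 : (starRingEnd ℂ) (ee t) * ee t = 1 := by
    rw [mul_comm, Complex.mul_conj, Complex.normSq_eq_norm_sq, norm_ee]
    simp
  have h2 := ee_neg_mul_self t
  have h3 : ee t ≠ 0 := by
    intro h
    have := norm_ee t
    rw [h] at this
    simp at this
  exact mul_right_cancel₀ h3 (h1.trans h2.symm)

section

variable {f : Nil → ℂ} (hf : Continuous f)

include hf in
lemma exists_bound : ∃ C : ℝ, 0 < C ∧ ∀ p, ‖f p‖ ≤ C := by
  obtain ⟨C, hC⟩ := isCompact_univ.exists_bound_of_continuousOn hf.continuousOn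
  exact ⟨max C 1, by positivity, fun p => (hC p (mem_univ p)).trans (le_max_left _ _)⟩

include hf in
lemma unif_y {ε : ℝ} (hε : 0 < ε) : ∃ δ > 0, ∀ s : ℝ, |s| < δ → ∀ p,
    ‖f (p.mulR (mk 0 s 0)) - f p‖ ≤ ε := by
  let G0 : C(ℝ × Nil, ℂ) := ⟨fun q => f (q.2.mulR (mk 0 q.1 0)),
    hf.comp (Continuous.mulR continuous_snd (continuous_mk continuous_const continuous_fst
      continuous_const))⟩
  have h0 : ∀ p, G0.curry 0 p = f p := by
    intro p
    show f (p.mulR (mk 0 0 0)) = f p
    have : mk 0 0 0 = 1 := rfl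
    rw [this, mulR_one]
  have hG := G0.curry.continuous.continuousAt (x := 0)
  rw [Metric.continuousAt_iff] at hG
  obtain ⟨δ, hδ, H⟩ := hG ε hε
  refine ⟨δ, hδ, fun s hs p => ?_⟩
  have h1 := H (x := s) (by simpa [Real.dist_eq] using hs)
  have h2 := ContinuousMap.dist_apply_le_dist (f := G0.curry s) (g := G0.curry 0) p
  rw [h0, dist_eq_norm] at h2
  exact h2.trans h1.le

/-- Decay of correlations along the flow for functions with nonzero central frequency. -/
lemma corr_decay (a : ℝ) (hf : Continuous f) {k : ℤ} (hk : k ≠ 0)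
    (hfk : ∀ p s, f (p.mulR (zc s)) = ee (k * s) * f p) {ε : ℝ} (hε : 0 < ε) :
    ∃ T : ℝ, 0 < T ∧ ∀ h : ℝ, T ≤ |h| →
      ‖∫ p, f (nilflow (gen a) h p) * (starRingEnd ℂ) (f p) ∂haarNil‖ ≤ ε := by
  obtain ⟨C, hC0, hC⟩ := exists_bound hf
  obtain ⟨δ, hδ, H⟩ := unif_y hf (ε := ε / C) (by positivity)
  have hk' : (1 : ℝ) ≤ |(k : ℝ)| := by
    have := Int.one_le_abs hk
    exact_mod_cast this
  refine ⟨1 / δ, by positivity, fun h hh => ?_⟩
  have hh0 : 0 < |h| := lt_of_lt_of_le (by positivity) hh
  have hhne : h ≠ 0 := abs_pos.1 hh0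
  have hkne : (k : ℝ) ≠ 0 := by exact_mod_cast hk
  set s : ℝ := 1 / (2 * k * h) with hs
  have hsδ : |s| < δ := by
    rw [hs, abs_div, abs_mul, abs_mul, abs_one, abs_two, div_lt_iff₀ (by positivity)]
    have : 1 ≤ δ * |h| := by
      rw [div_le_iff₀ hδ] at hh
      linarith
    nlinarith [mul_le_mul hk' this (by norm_num) (by positivity)]
  -- the translated integral
  have e1 : ∀ p : Nil, f (nilflow (gen a) h (p.mulR (mk 0 s 0))) =
      -f ((nilflow (gen a) h p).mulR (mk 0 s 0)) := by
    intro p
    have : nilflow (gen a) h (p.mulR (mk 0 s 0)) =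
        ((nilflow (gen a) h p).mulR (mk 0 s 0)).mulR (zc (-(h * s))) := by
      unfold nilflow
      rw [mulR_mulR, mulR_mulR, mulR_mulR]
      congr 1
      rw [expo_gen]
      apply Heis.ext
      · simp [zc]
      · simp [zc]; ring
      · simp [zc]
    rw [this, hfk]
    have : (k : ℝ) * (-(h * s)) = -(1 / 2) := by
      rw [hs]; field_simp
    rw [this, ee_neg_half]
    ring
  have cont1 : Continuous (fun p => f (nilflow (gen a) h p) * (starRingEnd ℂ) (f p)) :=
    (hf.comp ((continuous_nilflow _).comp (Continuous.prodMk continuous_const continuous_id))).mul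
      (Complex.continuous_conj.comp hf)
  have cont2 : Continuous (fun p : Nil => f ((nilflow (gen a) h p).mulR (mk 0 s 0)) *
      (starRingEnd ℂ) (f (p.mulR (mk 0 s 0)))) := by
    refine (hf.comp (Continuous.mulR ((continuous_nilflow _).comp
      (Continuous.prodMk continuous_const continuous_id)) continuous_const)).mul
      (Complex.continuous_conj.comp (hf.comp (Continuous.mulR continuous_id continuous_const)))
  have int_of : ∀ {F : Nil → ℂ}, Continuous F → Integrable F haarNil := by
    intro F hF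
    obtain ⟨D, _, hD⟩ := exists_bound hF
    exact Integrable.of_bound hF.aestronglyMeasurable D (ae_of_all _ hD)
  have e2 : ∫ p, f (nilflow (gen a) h p) * (starRingEnd ℂ) (f p) ∂haarNil =
      -∫ p : Nil, f ((nilflow (gen a) h p).mulR (mk 0 s 0)) *
        (starRingEnd ℂ) (f (p.mulR (mk 0 s 0))) ∂haarNil := by
    rw [← integral_neg]
    conv_lhs => rw [← (measurePreserving_haar (mk 0 s 0)).map_eq]
    rw [integral_map (measurable_mulR _).aemeasurable cont1.aestronglyMeasurable]
    congr 1
    ext p
    rw [e1]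
    ring
  have e3 : 2 * ∫ p, f (nilflow (gen a) h p) * (starRingEnd ℂ) (f p) ∂haarNil =
      ∫ p : Nil, (f (nilflow (gen a) h p) * (starRingEnd ℂ) (f p) -
        f ((nilflow (gen a) h p).mulR (mk 0 s 0)) *
        (starRingEnd ℂ) (f (p.mulR (mk 0 s 0)))) ∂haarNil := by
    rw [integral_sub (int_of cont1) (int_of cont2), two_mul]
    nth_rewrite 2 [e2]
    ring
  have e4 : ‖∫ p : Nil, (f (nilflow (gen a) h p) * (starRingEnd ℂ) (f p) -
        f ((nilflow (gen a) h p).mulR (mk 0 s 0)) *
        (starRingEnd ℂ) (f (p.mulR (mk 0 s 0)))) ∂haarNil‖ ≤ 2 * ε := by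
    have := norm_integral_le_of_norm_le_const (μ := haarNil) (C := 2 * ε)
      (f := fun p : Nil => (f (nilflow (gen a) h p) * (starRingEnd ℂ) (f p) -
        f ((nilflow (gen a) h p).mulR (mk 0 s 0)) *
        (starRingEnd ℂ) (f (p.mulR (mk 0 s 0))))) (ae_of_all _ fun p => ?_)
    · simpa using this
    · set A := f (nilflow (gen a) h p)
      set B := f ((nilflow (gen a) h p).mulR (mk 0 s 0))
      set A' := f p
      set B' := f (p.mulR (mk 0 s 0))
      have h1 : ‖B - A‖ ≤ ε / C := H s hsδ _
      have h2 : ‖B' - A'‖ ≤ ε / C := H s hsδ _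
      have : A * (starRingEnd ℂ) A' - B * (starRingEnd ℂ) B' =
          -((B - A) * (starRingEnd ℂ) A') - B * (starRingEnd ℂ) (B' - A') := by
        rw [map_sub]; ring
      rw [this]
      calc ‖-((B - A) * (starRingEnd ℂ) A') - B * (starRingEnd ℂ) (B' - A')‖
          ≤ ‖-((B - A) * (starRingEnd ℂ) A')‖ + ‖B * (starRingEnd ℂ) (B' - A')‖ := norm_sub_le _ _
        _ = ‖B - A‖ * ‖A'‖ + ‖B‖ * ‖B' - A'‖ := by
            rw [norm_neg, norm_mul, norm_mul, RCLike.norm_conj, RCLike.norm_conj]
        _ ≤ (ε / C) * C + C * (ε / C) := by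
            gcongr
            · exact hC _
            · exact hC _
        _ = 2 * ε := by field_simp; ring
  rw [← e3, norm_mul] at e4
  simp only [Complex.norm_ofNat] at e4
  linarith

end

end Pool.Agent.N256.HN
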