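import Pool.Agent.N256.HN.UE

/-!
# Unique ergodicity of irrational Heisenberg nilflows: conclusion
-/

set_option autoImplicit false

open MeasureTheory Filter Topology Set
open scoped ENNReal ContDiff

namespace Pool.Agent.N256.HN

open Heis

lemma integrable_of_cont {ν : Measure Nil} [IsFiniteMeasure ν] {F : Nil → ℂ} (hF : Continuous F) :
    Integrable F ν := by
  obtain ⟨D, _, hD⟩ := exists_bound hF
  exact Integrable.of_bound hF.aestronglyMeasurable D (ae_of_all _ hD)

/-- `|∫ S|² ≤ ∫ |S|²` -/
lemma sq_integral_le {ν : Measure Nil} [IsProbabilityMeasure ν] {S : Nil → ℂ} (hS : Continuous S) :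
    ‖∫ p, S p ∂ν‖ ^ 2 ≤ ∫ p, ‖S p‖ ^ 2 ∂ν := by
  obtain ⟨D, _, hD⟩ := exists_bound hS
  have i1 : Integrable (fun p => ‖S p‖) ν :=
    Integrable.of_bound hS.norm.aestronglyMeasurable D (ae_of_all _ fun p => by simpa using hD p)
  have i2 : Integrable (fun p => ‖S p‖ ^ 2) ν := by
    refine Integrable.of_bound (hS.norm.pow 2).aestronglyMeasurable (D ^ 2) (ae_of_all _ fun p => ?_)
    rw [Real.norm_eq_abs, abs_of_nonneg (by positivity)]
    gcongr
    exact hD p
  set m := ∫ p, ‖S p‖ ∂ν with hm
  have h0 : ‖∫ p, S p ∂ν‖ ≤ m := norm_integral_le_integral_norm _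
  have h1 : 0 ≤ ∫ p, (‖S p‖ - m) ^ 2 ∂ν := integral_nonneg fun p => sq_nonneg _
  have h2 : ∫ p, (‖S p‖ - m) ^ 2 ∂ν = ∫ p, ‖S p‖ ^ 2 ∂ν - 2 * m * m + m ^ 2 := by
    have : ∀ p, (‖S p‖ - m) ^ 2 = (‖S p‖ ^ 2 - 2 * m * ‖S p‖) + m ^ 2 := fun p => by ring
    simp only [this]
    have i3 : Integrable (fun p => 2 * m * ‖S p‖) ν := i1.const_mul _
    have i4 : Integrable (fun p => ‖S p‖ ^ 2 - 2 * m * ‖S p‖) ν := i2.sub i3
    rw [integral_add i4 (integrable_const _), integral_sub i2 i3, integral_const_mul, ← hm]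
    simp
  have h3 : m ^ 2 ≤ ∫ p, ‖S p‖ ^ 2 ∂ν := by nlinarith
  calc ‖∫ p, S p ∂ν‖ ^ 2 ≤ m ^ 2 := by gcongr
    _ ≤ _ := h3

section

variable {a : ℝ} (ha : Irrational a) {ν : Measure Nil} [IsProbabilityMeasure ν]
  (hν : ∀ t, MeasurePreserving (nilflow (gen a) t) ν ν)

lemma nilflow_zc (X : ℝ × ℝ × ℝ) (t s : ℝ) (p : Nil) :
    nilflow X t (p.mulR (zc s)) = (nilflow X t p).mulR (zc s) := by
  unfold nilflow
  rw [mulR_mulR, mulR_mulR, zc_comm]

lemma continuous_nilflow_fix (X : ℝ × ℝ × ℝ) (t : ℝ) : Continuous (nilflow X t) :=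
  (continuous_nilflow X).comp (Continuous.prodMk continuous_const continuous_id)

include ha hν in
lemma integral_freq_zero {f : Nil → ℂ} (hf : Continuous f) {k : ℤ} (hk : k ≠ 0)
    (hfk : ∀ p s, f (p.mulR (zc s)) = ee (k * s) * f p) : ∫ p, f p ∂ν = 0 := by
  obtain ⟨C, hC0, hC⟩ := exists_bound hf
  -- main estimate
  have main : ∀ (N : ℕ) (ε : ℝ), 0 < ε → (N : ℝ) ^ 2 * ‖∫ p, f p ∂ν‖ ^ 2 ≤ N * C ^ 2 + N ^ 2 * ε := by
    intro N ε hε
    obtain ⟨T, hT0, hT⟩ := corr_decay a hf hk hfk hε
    set v : ℕ → Nil → ℂ := fun n p => f (nilflow (gen a) (n * T) p) with hv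
    have hvc : ∀ n, Continuous (v n) := fun n => hf.comp (continuous_nilflow_fix _ _)
    have hvk : ∀ n p s, v n (p.mulR (zc s)) = ee (k * s) * v n p := by
      intro n p s
      simp only [hv]
      rw [nilflow_zc, hfk]
    set S : Nil → ℂ := fun p => ∑ n ∈ Finset.range N, v n p with hS
    have hSc : Continuous S := continuous_finsetSum _ fun n _ => hvc n
    have e1 : ∫ p, S p ∂ν = N * ∫ p, f p ∂ν := by
      simp only [hS]
      rw [integral_finsetSum _ fun n _ => integrable_of_cont (hvc n)]
      have : ∀ n ∈ Finset.range N, ∫ p, v n p ∂ν = ∫ p, f p ∂ν := by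
        intro n _
        simp only [hv]
        conv_rhs => rw [← (hν (n * T)).map_eq]
        rw [integral_map (hν (n * T)).measurable.aemeasurable hf.aestronglyMeasurable]
      rw [Finset.sum_congr rfl this]
      simp
    have e2 : ((∫ p, ‖S p‖ ^ 2 ∂ν : ℝ) : ℂ) = ∑ n ∈ Finset.range N, ∑ m ∈ Finset.range N,
        ∫ p, v n p * (starRingEnd ℂ) (v m p) ∂ν := by
      rw [← integral_complex_ofReal]
      have : ∀ p, ((‖S p‖ ^ 2 : ℝ) : ℂ) = ∑ n ∈ Finset.range N, ∑ m ∈ Finset.range N,
          v n p * (starRingEnd ℂ) (v m p) := by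
        intro p
        rw [← Complex.normSq_eq_norm_sq, ← Complex.mul_conj]
        simp only [hS]
        rw [map_sum, Finset.sum_mul_sum]
      simp only [this]
      rw [integral_finsetSum]
      · refine Finset.sum_congr rfl fun n _ => ?_
        rw [integral_finsetSum]
        intro m _
        exact integrable_of_cont ((hvc n).mul (Complex.continuous_conj.comp (hvc m)))
      · intro n _
        refine integrable_finsetSum _ fun m _ => ?_
        exact integrable_of_cont ((hvc n).mul (Complex.continuous_conj.comp (hvc m)))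
    have e3 : ∀ n m, ∫ p, v n p * (starRingEnd ℂ) (v m p) ∂ν =
        ∫ p, v n p * (starRingEnd ℂ) (v m p) ∂haarNil := by
      intro n m
      refine integral_central ha hν ((hvc n).mul (Complex.continuous_conj.comp (hvc m)))
        fun p s => ?_
      rw [hvk, hvk, map_mul, star_ee]
      calc ee (k * s) * v n p * (ee (-(k * s)) * (starRingEnd ℂ) (v m p))
          = (ee (-(k * s)) * ee (k * s)) * (v n p * (starRingEnd ℂ) (v m p)) := by ring
        _ = _ := by rw [ee_neg_mul_self, one_mul]
    have e4 : ∀ n m : ℕ, n ≠ m → ‖∫ p, v n p * (starRingEnd ℂ) (v m p) ∂haarNil‖ ≤ ε := by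
      intro n m hnm
      have hc : Continuous (fun p => f (nilflow (gen a) ((n - m) * T) p) * (starRingEnd ℂ) (f p)) :=
        (hf.comp (continuous_nilflow_fix _ _)).mul (Complex.continuous_conj.comp hf)
      have : ∫ p, v n p * (starRingEnd ℂ) (v m p) ∂haarNil =
          ∫ p, f (nilflow (gen a) ((n - m) * T) p) * (starRingEnd ℂ) (f p) ∂haarNil := by
        conv_rhs => rw [← (measurePreserving_haar (expo (gen a) (m * T))).map_eq]
        rw [integral_map (measurable_mulR _).aemeasurable hc.aestronglyMeasurable]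
        congr 1
        ext p
        simp only [hv]
        congr 2
        show _ = nilflow (gen a) ((n - m) * T) (nilflow (gen a) (m * T) p)
        rw [nilflow_add]
        congr 1
        ring
      rw [this]
      refine hT _ ?_
      rw [abs_mul, abs_of_pos hT0]
      have : (1 : ℝ) ≤ |(n : ℝ) - m| := by
        have h1 : (1 : ℤ) ≤ |(n : ℤ) - m| := Int.one_le_abs (by omega)
        exact_mod_cast h1
      nlinarith
    have e5 : ∀ n m : ℕ, ‖∫ p, v n p * (starRingEnd ℂ) (v m p) ∂haarNil‖ ≤
        (if n = m then C ^ 2 else 0) + ε := by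
      intro n m
      split_ifs with h
      · have := norm_integral_le_of_norm_le_const (μ := haarNil) (C := C ^ 2)
          (f := fun p => v n p * (starRingEnd ℂ) (v m p)) (ae_of_all _ fun p => ?_)
        · have h2 : ‖∫ p, v n p * (starRingEnd ℂ) (v m p) ∂haarNil‖ ≤ C ^ 2 := by simpa using this
          linarith
        · rw [norm_mul, RCLike.norm_conj, sq]
          exact mul_le_mul (hC _) (hC _) (norm_nonneg _) hC0.le
      · rw [zero_add]
        exact e4 n m h
    have e6 : ∫ p, ‖S p‖ ^ 2 ∂ν ≤ N * C ^ 2 + N ^ 2 * ε := by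
      have h0 : 0 ≤ ∫ p, ‖S p‖ ^ 2 ∂ν := integral_nonneg fun p => by positivity
      have h1 : ‖((∫ p, ‖S p‖ ^ 2 ∂ν : ℝ) : ℂ)‖ = ∫ p, ‖S p‖ ^ 2 ∂ν := by
        rw [Complex.norm_real, Real.norm_eq_abs, abs_of_nonneg h0]
      rw [← h1, e2]
      calc ‖∑ n ∈ Finset.range N, ∑ m ∈ Finset.range N, ∫ p, v n p * (starRingEnd ℂ) (v m p) ∂ν‖
          ≤ ∑ n ∈ Finset.range N, ∑ m ∈ Finset.range N, ((if n = m then C ^ 2 else 0) + ε) := by
            refine (norm_sum_le _ _).trans (Finset.sum_le_sum fun n _ => ?_)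
            refine (norm_sum_le _ _).trans (Finset.sum_le_sum fun m _ => ?_)
            rw [e3]
            exact e5 n m
        _ = ∑ n ∈ Finset.range N, (C ^ 2 + N * ε) := by
            refine Finset.sum_congr rfl fun n hn => ?_
            rw [Finset.sum_add_distrib, Finset.sum_ite_eq, if_pos hn]
            simp
        _ = N * C ^ 2 + N ^ 2 * ε := by
            simp
            ring
    calc (N : ℝ) ^ 2 * ‖∫ p, f p ∂ν‖ ^ 2 = ‖∫ p, S p ∂ν‖ ^ 2 := by
          rw [e1, norm_mul, Complex.norm_natCast]; ring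
      _ ≤ ∫ p, ‖S p‖ ^ 2 ∂ν := sq_integral_le hSc
      _ ≤ _ := e6
  -- conclusion
  by_contra hne
  set c := ‖∫ p, f p ∂ν‖ with hc
  have hcpos : 0 < c := norm_pos_iff.2 hne
  obtain ⟨N, hN⟩ := exists_nat_gt (2 * C ^ 2 / c ^ 2)
  have hNpos : (0 : ℝ) < N := lt_of_le_of_lt (by positivity) hN
  have h1 := main N (c ^ 2 / 2) (by positivity)
  have h2 : (N : ℝ) * c ^ 2 ≤ 2 * C ^ 2 := by
    have : (N : ℝ) * (N * c ^ 2) ≤ N * (2 * C ^ 2) := by nlinarith
    exact le_of_mul_le_mul_left this hNpos
  rw [div_lt_iff₀ (by positivity)] at hN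
  linarith

lemma exists_fourier {f : Nil → ℂ} (hf : Continuous f) (k : ℤ) :
    Continuous (fun p : Nil => ∫ s in (0 : ℝ)..1, ee (-(k * s)) * f (p.mulR (zc s))) ∧
    ∀ (p : Nil) (r : ℝ), (∫ s in (0 : ℝ)..1, ee (-(k * s)) * f ((p.mulR (zc r)).mulR (zc s))) =
      ee (k * r) * ∫ s in (0 : ℝ)..1, ee (-(k * s)) * f (p.mulR (zc s)) := by
  constructor
  · refine intervalIntegral.continuous_parametric_intervalIntegral_of_continuous' ?_ 0 1
    refine Continuous.mul ?_ ?_
    · exact continuous_ee.comp (by fun_prop)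
    · exact hf.comp (Continuous.mulR continuous_fst (continuous_zc.comp continuous_snd))
  · intro p r
    have h1 : ∀ s : ℝ, ee (-(k * s)) * f ((p.mulR (zc r)).mulR (zc s)) =
        ee (k * r) * (ee (-(k * (s + r))) * f (p.mulR (zc (s + r)))) := by
      intro s
      rw [mulR_mulR, zc_add, ← mul_assoc, ← ee_add]
      congr 2
      · ring_nf
      · ring_nf
    simp only [h1]
    rw [intervalIntegral.integral_const_mul,
      intervalIntegral.integral_comp_add_right (fun s => ee (-(k * s)) * f (p.mulR (zc s)))]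
    congr 1
    have hp : Function.Periodic (fun s : ℝ => ee (-(k * s)) * f (p.mulR (zc s))) 1 := by
      intro s
      simp only
      have e1 : -((k : ℝ) * (s + 1)) = -(k * s) + ((-k : ℤ) : ℝ) := by push_cast; ring
      have e2 : p.mulR (zc (s + 1)) = p.mulR (zc s) := by
        rw [← zc_add, ← mulR_mulR]
        have := mulR_zc_one (p.mulR (zc s)) 1
        simpa using this
      rw [e1, ee_add, ee_int, mul_one, e2]
    have := hp.intervalIntegral_add_eq r 0
    rw [zero_add, add_comm 1 r, this, zero_add]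

/-- A continuous periodic function without nonzero frequencies is constant. -/
lemma const_of_fourier {J : ℝ → ℂ} (hJ : Continuous J) (hp : Function.Periodic J 1)
    (h : ∀ k : ℤ, k ≠ 0 → ∫ s in (0 : ℝ)..1, ee (-(k * s)) * J s = 0) (s t : ℝ) : J s = J t := by
  have hp' : Function.Periodic J (1 : ℝ) := hp
  let F : C(UnitAddCircle, ℂ) := ⟨hp'.lift, by
    have : IsQuotientMap ((↑) : ℝ → UnitAddCircle) := isQuotientMap_quotient_mk'
    rw [this.continuous_iff]
    exact hJ⟩
  have hF : ∀ s : ℝ, F (s : UnitAddCircle) = J s := fun s => rfl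
  have h0 : ∀ k : ℤ, k ≠ 0 → fourierCoeff F k = 0 := by
    intro k hk
    rw [fourierCoeff_eq_intervalIntegral F k 0]
    rw [zero_add]
    have := h k hk
    simp only [one_div, inv_one, one_smul]
    rw [← this]
    refine intervalIntegral.integral_congr fun s _ => ?_
    show fourier (-k) (s : UnitAddCircle) • F (s : UnitAddCircle) = ee (-(k * s)) * J s
    rw [hF, fourier_coe_apply, smul_eq_mul]
    congr 1
    unfold ee
    congr 1
    push_cast
    ring
  have hsum : Summable (fourierCoeff F) := by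
    refine summable_of_ne_finset_zero (s := {0}) fun k hk => h0 k ?_
    simpa using hk
  have key : ∀ x : UnitAddCircle, F x = fourierCoeff F 0 := by
    intro x
    have h1 := has_pointwise_sum_fourier_series_of_summable hsum x
    have h2 : HasSum (fun i : ℤ => fourierCoeff F i • fourier i x) (fourierCoeff F 0 • fourier 0 x) := by
      refine hasSum_single 0 fun k hk => ?_
      rw [h0 k hk, zero_smul]
    have := h1.unique h2
    rw [this]
    simp
  rw [← hF, ← hF, key, key]

include ha hν in
lemma integral_zc {f : Nil → ℂ} (hf : Continuous f) (s : ℝ) :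
    ∫ p, f (p.mulR (zc s)) ∂ν = ∫ p, f p ∂ν := by
  set J : ℝ → ℂ := fun s => ∫ p, f (p.mulR (zc s)) ∂ν with hJ
  obtain ⟨C, hC0, hC⟩ := exists_bound hf
  have hfc : Continuous (fun q : ℝ × Nil => f (q.2.mulR (zc q.1))) :=
    hf.comp (Continuous.mulR continuous_snd (continuous_zc.comp continuous_fst))
  have hJc : Continuous J := by
    refine continuous_of_dominated (bound := fun _ => C) ?_ ?_ ?_ ?_
    · intro s
      exact (hfc.comp (Continuous.prodMk continuous_const continuous_id)).aestronglyMeasurable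
    · intro s
      exact ae_of_all _ fun p => hC _
    · exact integrable_const _
    · exact ae_of_all _ fun p => hfc.comp (Continuous.prodMk continuous_id continuous_const)
  have hJp : Function.Periodic J 1 := by
    intro s
    simp only [hJ]
    congr 1
    ext p
    congr 1
    rw [← zc_add, ← mulR_mulR]
    have := mulR_zc_one (p.mulR (zc s)) 1
    simpa using this
  have hJk : ∀ k : ℤ, k ≠ 0 → ∫ s in (0 : ℝ)..1, ee (-(k * s)) * J s = 0 := by
    intro k hk
    obtain ⟨h1, h2⟩ := exists_fourier hf k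
    have h3 := integral_freq_zero ha hν h1 hk h2
    rw [← h3]
    simp only [hJ]
    rw [intervalIntegral.integral_of_le zero_le_one]
    simp only [intervalIntegral.integral_of_le zero_le_one]
    simp only [← integral_const_mul]
    rw [integral_integral_swap]
    refine Integrable.of_bound (C := C) ?_ (ae_of_all _ fun q => ?_)
    · refine Continuous.aestronglyMeasurable ?_
      exact (continuous_ee.comp (by fun_prop)).mul hfc
    · simp only [Function.uncurry]
      rw [norm_mul, norm_ee, one_mul]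
      exact hC _
  have := const_of_fourier hJc hJp hJk s 0
  simp only [hJ] at this
  rw [this, zc_zero]
  simp only [mulR_one]

include ha hν in
lemma integral_eq_haar {f : Nil → ℂ} (hf : Continuous f) : ∫ p, f p ∂ν = ∫ p, f p ∂haarNil := by
  obtain ⟨C, hC0, hC⟩ := exists_bound hf
  have hfc : Continuous (fun q : ℝ × Nil => f (q.2.mulR (zc q.1))) :=
    hf.comp (Continuous.mulR continuous_snd (continuous_zc.comp continuous_fst))
  have key : ∀ ρ : Measure Nil, IsProbabilityMeasure ρ →
      (∀ s, ∫ p, f (p.mulR (zc s)) ∂ρ = ∫ p, f p ∂ρ) →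
      ∫ p, f p ∂ρ = ∫ p, (∫ s in (0 : ℝ)..1, f (p.mulR (zc s))) ∂ρ := by
    intro ρ _ h
    have h1 : ∫ p, f p ∂ρ = ∫ s in (0 : ℝ)..1, ∫ p, f (p.mulR (zc s)) ∂ρ := by
      simp only [h]
      simp
    rw [h1, intervalIntegral.integral_of_le zero_le_one]
    simp only [intervalIntegral.integral_of_le zero_le_one]
    rw [integral_integral_swap]
    exact Integrable.of_bound (C := C) hfc.aestronglyMeasurable (ae_of_all _ fun q => hC _)
  rw [key ν inferInstance (fun s => integral_zc ha hν hf s), key haarNil inferInstance]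
  · have h0 := exists_fourier hf 0
    simp only [Int.cast_zero, zero_mul, neg_zero, ee_zero, one_mul] at h0
    exact integral_central ha hν h0.1 h0.2
  · intro s
    conv_rhs => rw [← (measurePreserving_haar (zc s)).map_eq]
    rw [integral_map (measurable_mulR _).aemeasurable hf.aestronglyMeasurable]

include ha hν in
theorem eq_haar : ν = haarNil := by
  refine ext_cont fun f hf => ?_
  have := integral_eq_haar ha hν (f := fun p => (f p : ℂ)) (Complex.continuous_ofReal.comp hf)
  rw [integral_complex_ofReal, integral_complex_ofReal] at this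
  exact_mod_cast this

include ha in
/-- Unique ergodicity of the Heisenberg nilflow with irrational slope. -/
theorem uniquelyErgodic : UniquelyErgodic (nilflow (gen a)) haarNil := by
  intro ν
  constructor
  · rintro ⟨h1, h2⟩
    exact eq_haar ha h2
  · rintro rfl
    exact ⟨inferInstance, fun t => measurePreserving_haar _⟩

end

end Pool.Agent.N256.HN
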